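import Pool.Agent.H57.EX.Defs
import Pool.Agent.H89.Perc.FKG

/-!
# Probability with some closed edges, norms
-/

open MeasureTheory ProbabilityTheory unitInterval

namespace Pool.Agent.H57.EX

open Pool.Agent.H89.Perc Pool.Agent.H61.NC Pool.Agent.H29.Sep

variable {q : I} {E : Finset Edge}

theorem PrE_nonneg {A : Set Config} : 0 ≤ PrE q E A := by
  exact Pr_nonneg

theorem PrE_le_one {A : Set Config} : PrE q E A ≤ 1 := by
  exact Pr_le_one

theorem PrE_mono {A B : Set Config} (h : A ⊆ B) : PrE q E A ≤ PrE q E B := by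
  exact Pr_mono fun _ hω => h hω

theorem PrE_union_le {A B : Set Config} : PrE q E (A ∪ B) ≤ PrE q E A + PrE q E B := by
  have h : {ω | shut E ω ∈ A ∪ B} = {ω | shut E ω ∈ A} ∪ {ω | shut E ω ∈ B} := rfl
  unfold PrE
  rw [h]
  exact Pr_union_le

theorem PrE_biUnion_le {ι : Type*} (F : Finset ι) (A : ι → Set Config) :
    PrE q E (⋃ i ∈ F, A i) ≤ ∑ i ∈ F, PrE q E (A i) := by
  unfold PrE
  have h : {ω | shut E ω ∈ ⋃ i ∈ F, A i} = ⋃ i ∈ F, {ω | shut E ω ∈ A i} := by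
    ext ω
    simp
  rw [h]
  exact Pr_biUnion_le F _

/-- Events which do not look at the closed edges. -/
theorem PrE_eq {t : Finset Edge} {A : Set Config} (h : LocalOn t A) (hd : Disjoint t E) :
    PrE q E A = Pr q A := by
  unfold PrE
  congr 1
  ext ω
  have h1 : ∀ e ∈ t, shut E ω e = ω e := by
    intro e he
    have h2 : e ∉ E := fun h3 => (Finset.disjoint_left.1 hd he) h3
    simp [shut, h2]
  constructor
  · exact h _ _ h1
  · exact h _ _ fun e he => (h1 e he).symm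

theorem PrE_inter {s t : Finset Edge} {A B : Set Config} (hA : LocalOn s A) (hB : LocalOn t B)
    (hd : Disjoint s t) : PrE q E (A ∩ B) = PrE q E A * PrE q E B := by
  classical
  unfold PrE
  have h : {ω | shut E ω ∈ A ∩ B} = {ω | shut E ω ∈ A} ∩ {ω | shut E ω ∈ B} := rfl
  rw [h]
  exact Pr_inter_of_disjoint (localOn_shut hA) (localOn_shut hB)
    (hd.mono Finset.sdiff_subset Finset.sdiff_subset)

/-- Closing edges makes a decreasing event more likely. -/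
theorem le_PrE_of_decr {t : Finset Edge} {A : Set Config} (h : LocalOn t A) (iA : Incr Aᶜ) :
    Pr q A ≤ PrE q E A := by
  exact Pr_le_shut h iA

/-- Conditional FKG (see `cond_fkg`). -/
theorem cond_fkgE {ι : Type*} (F : Finset ι) (X A O : ι → Set Config) (tX tA tO : ι → Finset Edge)
    {c : ℝ} (hc : 0 ≤ c)
    (hdisj : ∀ i ∈ F, ∀ j ∈ F, i ≠ j → Disjoint (X i) (X j))
    (hX : ∀ i ∈ F, LocalOn (tX i) (X i)) (hA : ∀ i ∈ F, LocalOn (tA i) (A i))
    (hO : ∀ i ∈ F, LocalOn (tO i) (O i)) (iA : ∀ i ∈ F, Incr (A i)) (iO : ∀ i ∈ F, Incr (O i))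
    (h1 : ∀ i ∈ F, Disjoint (tX i) (tA i)) (h2 : ∀ i ∈ F, Disjoint (tX i) (tO i))
    (hP : ∀ i ∈ F, c ≤ PrE q E (O i)) :
    c * PrE q E (⋃ i ∈ F, X i ∩ A i) ≤ PrE q E (⋃ i ∈ F, X i ∩ (A i ∩ O i)) := by
  classical
  have e1 : {ω | shut E ω ∈ ⋃ i ∈ F, X i ∩ A i} =
      ⋃ i ∈ F, {ω | shut E ω ∈ X i} ∩ {ω | shut E ω ∈ A i} := by
    ext ω
    simp
  have e2 : {ω | shut E ω ∈ ⋃ i ∈ F, X i ∩ (A i ∩ O i)} =
      ⋃ i ∈ F, {ω | shut E ω ∈ X i} ∩ ({ω | shut E ω ∈ A i} ∩ {ω | shut E ω ∈ O i}) := by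
    ext ω
    simp
  unfold PrE at hP ⊢
  rw [e1, e2]
  refine cond_fkg F _ _ _ (fun i => tX i \ E) (fun i => tA i \ E) (fun i => tO i \ E) hc ?_
    (fun i hi => localOn_shut (hX i hi)) (fun i hi => localOn_shut (hA i hi))
    (fun i hi => localOn_shut (hO i hi)) (fun i hi => incr_shut (iA i hi))
    (fun i hi => incr_shut (iO i hi))
    (fun i hi => (h1 i hi).mono Finset.sdiff_subset Finset.sdiff_subset)
    (fun i hi => (h2 i hi).mono Finset.sdiff_subset Finset.sdiff_subset) hP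
  intro i hi j hj hij
  rw [Set.disjoint_left]
  intro ω hω hω'
  exact (Set.disjoint_left.1 (hdisj i hi j hj hij)) hω hω'

/-- Conditional independence (see `cond_indep`). -/
theorem cond_indepE {ι : Type*} (F : Finset ι) (X O : ι → Set Config) (tX tO : ι → Finset Edge)
    {c : ℝ} (hc : 0 ≤ c)
    (hdisj : ∀ i ∈ F, ∀ j ∈ F, i ≠ j → Disjoint (X i) (X j))
    (hX : ∀ i ∈ F, LocalOn (tX i) (X i)) (hO : ∀ i ∈ F, LocalOn (tO i) (O i))
    (h2 : ∀ i ∈ F, Disjoint (tX i) (tO i)) (hP : ∀ i ∈ F, c ≤ PrE q E (O i)) :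
    c * PrE q E (⋃ i ∈ F, X i) ≤ PrE q E (⋃ i ∈ F, X i ∩ O i) := by
  classical
  have e1 : {ω | shut E ω ∈ ⋃ i ∈ F, X i} = ⋃ i ∈ F, {ω | shut E ω ∈ X i} := by
    ext ω
    simp
  have e2 : {ω | shut E ω ∈ ⋃ i ∈ F, X i ∩ O i} =
      ⋃ i ∈ F, {ω | shut E ω ∈ X i} ∩ {ω | shut E ω ∈ O i} := by
    ext ω
    simp
  unfold PrE at hP ⊢
  rw [e1, e2]
  refine cond_indep F _ _ (fun i => tX i \ E) (fun i => tO i \ E) hc ?_
    (fun i hi => localOn_shut (hX i hi)) (fun i hi => localOn_shut (hO i hi))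
    (fun i hi => (h2 i hi).mono Finset.sdiff_subset Finset.sdiff_subset) hP
  intro i hi j hj hij
  rw [Set.disjoint_left]
  intro ω hω hω'
  exact (Set.disjoint_left.1 (hdisj i hi j hj hij)) hω hω'

theorem mem_eIn {R : ℕ} {D : Set Vert} {e : Edge} (h : D ⊆ ball 0 R) :
    e ∈ eIn R D ↔ src e ∈ D ∧ tgt e ∈ D := by
  classical
  unfold eIn
  rw [Finset.mem_filter]
  constructor
  · exact fun h1 => h1.2
  · intro h1
    refine ⟨mem_eRect.2 ?_, h1⟩
    have h2 := h h1.1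
    simpa [ball] using h2

theorem mem_ball_zero {v : Vert} {r : ℕ} : v ∈ ball 0 r ↔ nrm v ≤ r := by
  simp only [mem_ball, nrm, max_le_iff, abs_le, Prod.fst_zero, Prod.snd_zero, zero_sub, zero_add]
  tauto

theorem mem_sphere_zero {v : Vert} {r : ℕ} : v ∈ sphere 0 r ↔ nrm v = r := by
  have h1 : v ∈ sphere 0 r ↔ v ∈ ball 0 r ∧
      (v.1 = -(r : ℤ) ∨ v.1 = r ∨ v.2 = -(r : ℤ) ∨ v.2 = r) := by
    change v ∈ ball 0 r ∧ _ ↔ _
    simp only [Prod.fst_zero, Prod.snd_zero, zero_sub, zero_add]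
  rw [h1, mem_ball]
  simp only [nrm, Prod.fst_zero, Prod.snd_zero, zero_sub, zero_add]
  rcases abs_cases v.1 with h2 | h2 <;> rcases abs_cases v.2 with h3 | h3 <;>
    rcases max_cases |v.1| |v.2| with h4 | h4 <;> omega

theorem mem_ball_self (v : Vert) (r : ℕ) : v ∈ ball v r := by
  exact self_mem_ball

theorem mem_ball_comm {u v : Vert} {r : ℕ} : u ∈ ball v r ↔ v ∈ ball u r := by
  simp only [mem_ball]
  omega

theorem ball_trans {u v w : Vert} {a b : ℕ} (h : u ∈ ball v a) (h' : w ∈ ball u b) :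
    w ∈ ball v (a + b) := by
  simp only [mem_ball] at h h' ⊢
  push_cast
  omega

theorem ball_mono {v : Vert} {a b : ℕ} (h : a ≤ b) : ball v a ⊆ ball v b := by
  intro u hu
  simp only [mem_ball] at hu ⊢
  omega

theorem nrm_le_of_mem_ball {u v : Vert} {a : ℕ} (h : u ∈ ball v a) : nrm u ≤ nrm v + a := by
  simp only [mem_ball] at h
  simp only [nrm]
  rcases abs_cases v.1 with h2 | h2 <;> rcases abs_cases v.2 with h3 | h3 <;>
    rcases max_cases |v.1| |v.2| with h4 | h4 <;>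
    refine max_le (abs_le.2 ⟨?_, ?_⟩) (abs_le.2 ⟨?_, ?_⟩) <;> omega

theorem le_nrm_of_mem_ball {u v : Vert} {a : ℕ} (h : u ∈ ball v a) : nrm v - a ≤ nrm u := by
  have h1 := nrm_le_of_mem_ball (mem_ball_comm.1 h)
  omega

theorem joins_ball {e : Edge} {u v : Vert} (h : Joins e u v) : v ∈ ball u 1 := by
  obtain ⟨x, y, b⟩ := e
  rcases h with ⟨rfl, rfl⟩ | ⟨rfl, rfl⟩ <;> cases b <;> simp [mem_ball, src, tgt] <;> omega

theorem joins_symm {e : Edge} {u v : Vert} (h : Joins e u v) : Joins e v u := by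
  exact h.symm

/-- The endpoints of an edge joining `u` and `v` are `u` and `v`. -/
theorem joins_ends {e : Edge} {u v : Vert} (h : Joins e u v) (P : Vert → Prop) :
    (P (src e) ∧ P (tgt e)) ↔ (P u ∧ P v) := by
  rcases h with ⟨rfl, rfl⟩ | ⟨rfl, rfl⟩
  · exact Iff.rfl
  · exact and_comm

end Pool.Agent.H57.EX
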