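import Pool.Agent.H57.EX.Walk

/-!
# First landing
-/

open MeasureTheory ProbabilityTheory unitInterval

namespace Pool.Agent.H57.EX

open Pool.Agent.H89.Perc Pool.Agent.H61.NC Pool.Agent.H29.Sep

/-- First landing. -/
theorem det1 {Z : Dat} {s : ℕ} {N N' : Finset Vert} (hN : IsNet N (4 * Z.m) s)
    (hN' : IsNet N' (16 * Z.m) s) :
    Four Z.x Z.y (4 * Z.m) ∩ Out Z.D Z.L Z.T (16 * Z.m) ⊆
      (Four Z.x Z.y (4 * Z.m) ∩ Out Z.D Z.L Z.T (16 * Z.m) ∩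
        (NearIn Z (38 * s) ∪ NearOut Z (38 * s))) ∪ ⋃ b ∈ N, ⋃ b' ∈ N', E0 Z s b b' := by
  intro ω hω
  by_cases hnear : ω ∈ NearIn Z (38 * s) ∪ NearOut Z (38 * s)
  · exact Or.inl ⟨hω, hnear⟩
  · right
    obtain ⟨⟨⟨u0, hu0, hxu⟩, ⟨u1, hu1, hyu⟩, hxy⟩, ⟨u, hu, v, hv, huv, hT⟩, w, hw, v', hv', hwv⟩ :=
      hω
    obtain ⟨b, hb, hub⟩ := hN.cov u0 hu0
    obtain ⟨b', hb', hvb⟩ := hN'.cov v hv
    have hs : s ≤ 38 * s := by omega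
    have hucl : u ∉ cl ω Z.D Z.T := by
      rintro ⟨a, ha, hau⟩
      exact hT a ha hau.symm
    simp only [Set.mem_iUnion]
    refine ⟨b, hb, b', hb', ⟨u0, hub, hxu⟩, ?_, ⟨u, hu, hucl, v, hvb, huv⟩,
      ⟨u1, mem_cl_iff.2 hyu, hu1⟩, ⟨v', ⟨w, hw, hwv⟩, hv'⟩, ?_, ?_⟩
    · intro h
      exact hxy (mem_cl_iff.1 h).symm
    · by_contra hd
      rw [Set.not_disjoint_iff] at hd
      obtain ⟨a, ha, hab⟩ := hd
      exact hnear (Or.inl ⟨b, hN.sub b hb, ⟨u0, mem_cl_iff.2 hxu, ball_mono hs hub⟩, ⟨a, ha, hab⟩⟩)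
    · by_contra hd
      rw [Set.not_disjoint_iff] at hd
      obtain ⟨a, ha, hab⟩ := hd
      exact hnear (Or.inr ⟨b', hN'.sub b' hb', u, hu, hucl,
        ⟨v, mem_cl_iff.2 huv, ball_mono hs hvb⟩, ⟨a, ha, hab⟩⟩)

end Pool.Agent.H57.EX
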