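import Pool.Agent.H57.EX.Base

/-!
# Nets of spheres and grids of balls
-/

open MeasureTheory ProbabilityTheory unitInterval

namespace Pool.Agent.H57.EX

open Pool.Agent.H89.Perc Pool.Agent.H61.NC Pool.Agent.H29.Sep

/-- The one-dimensional grid. -/
private noncomputable def nets_line (t s : ℕ) : Finset ℤ :=
  (Finset.range (2 * t / s + 1)).image fun i : ℕ => -(t : ℤ) + s * i

private theorem nets_line_card (t s : ℕ) : (nets_line t s).card ≤ 2 * t / s + 1 := by
  unfold nets_line
  refine Finset.card_image_le.trans ?_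
  rw [Finset.card_range]

private theorem nets_line_bound {t s : ℕ} {g : ℤ} (hg : g ∈ nets_line t s) :
    -(t : ℤ) ≤ g ∧ g ≤ t := by
  unfold nets_line at hg
  obtain ⟨i, hi, rfl⟩ := Finset.mem_image.1 hg
  rw [Finset.mem_range, Nat.lt_succ_iff] at hi
  have h1 : s * i ≤ 2 * t := (Nat.mul_le_mul_left s hi).trans (Nat.mul_div_le _ _)
  have h2 : (s : ℤ) * i ≤ 2 * t := by exact_mod_cast h1
  have h3 : (0 : ℤ) ≤ (s : ℤ) * i := by positivity
  omega

private theorem nets_line_cov {t s : ℕ} (hs : 1 ≤ s) {x : ℤ} (h1 : -(t : ℤ) ≤ x) (h2 : x ≤ t) :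
    ∃ g ∈ nets_line t s, g - s ≤ x ∧ x ≤ g + s := by
  obtain ⟨n, hn⟩ := Int.eq_ofNat_of_zero_le (show 0 ≤ x + t by omega)
  have hn2 : n ≤ 2 * t := by omega
  refine ⟨-(t : ℤ) + s * ((n / s : ℕ) : ℤ), ?_, ?_⟩
  · unfold nets_line
    refine Finset.mem_image.2 ⟨n / s, ?_, rfl⟩
    rw [Finset.mem_range, Nat.lt_succ_iff]
    exact Nat.div_le_div_right hn2
  · have h3 : s * (n / s) ≤ n := Nat.mul_div_le _ _
    have h4 : n < s * (n / s) + s := by
      have := Nat.lt_mul_div_succ n (show 0 < s by omega)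
      rw [Nat.mul_add, Nat.mul_one] at this
      exact this
    have h5 : (s : ℤ) * ((n / s : ℕ) : ℤ) ≤ n := by exact_mod_cast h3
    have h6 : (n : ℤ) < (s : ℤ) * ((n / s : ℕ) : ℤ) + s := by exact_mod_cast h4
    omega

/-- Nets of spheres with boundedly many points. -/
theorem exists_net (t s : ℕ) (hs : 1 ≤ s) :
    ∃ N : Finset Vert, IsNet N t s ∧ N.card ≤ 8 * (2 * t / s + 2) := by
  classical
  refine ⟨(((nets_line t s).image fun g => ((-(t : ℤ), g) : Vert)) ∪
    ((nets_line t s).image fun g => (((t : ℤ), g) : Vert))) ∪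
    (((nets_line t s).image fun g => ((g, -(t : ℤ)) : Vert)) ∪
    ((nets_line t s).image fun g => ((g, (t : ℤ)) : Vert))), ⟨?_, ?_⟩, ?_⟩
  · intro v hv
    simp only [Finset.mem_union, Finset.mem_image] at hv
    rcases hv with (⟨g, hg, rfl⟩ | ⟨g, hg, rfl⟩) | (⟨g, hg, rfl⟩ | ⟨g, hg, rfl⟩) <;>
    · have h := nets_line_bound hg
      simp only [sphere, ball, rect, Set.mem_ofPred_eq, Prod.fst_zero, Prod.snd_zero]
      omega
  · rintro u ⟨hu, hb⟩
    simp only [mem_ball, Prod.fst_zero, Prod.snd_zero] at hu hb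
    rcases hb with hb | hb | hb | hb
    · obtain ⟨g, hg, hg2⟩ := nets_line_cov hs (x := u.2) (t := t) (by omega) (by omega)
      refine ⟨(-(t : ℤ), g), ?_, ?_⟩
      · simp only [Finset.mem_union, Finset.mem_image]
        exact Or.inl (Or.inl ⟨g, hg, rfl⟩)
      · simp only [mem_ball]
        omega
    · obtain ⟨g, hg, hg2⟩ := nets_line_cov hs (x := u.2) (t := t) (by omega) (by omega)
      refine ⟨((t : ℤ), g), ?_, ?_⟩
      · simp only [Finset.mem_union, Finset.mem_image]
        exact Or.inl (Or.inr ⟨g, hg, rfl⟩)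
      · simp only [mem_ball]
        omega
    · obtain ⟨g, hg, hg2⟩ := nets_line_cov hs (x := u.1) (t := t) (by omega) (by omega)
      refine ⟨(g, -(t : ℤ)), ?_, ?_⟩
      · simp only [Finset.mem_union, Finset.mem_image]
        exact Or.inr (Or.inl ⟨g, hg, rfl⟩)
      · simp only [mem_ball]
        omega
    · obtain ⟨g, hg, hg2⟩ := nets_line_cov hs (x := u.1) (t := t) (by omega) (by omega)
      refine ⟨(g, (t : ℤ)), ?_, ?_⟩
      · simp only [Finset.mem_union, Finset.mem_image]
        exact Or.inr (Or.inr ⟨g, hg, rfl⟩)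
      · simp only [mem_ball]
        omega
  · have h := nets_line_card t s
    have h1 := (Finset.card_image_le (s := nets_line t s) (f := fun g => ((-(t : ℤ), g) : Vert)))
    have h2 := (Finset.card_image_le (s := nets_line t s) (f := fun g => (((t : ℤ), g) : Vert)))
    have h3 := (Finset.card_image_le (s := nets_line t s) (f := fun g => ((g, -(t : ℤ)) : Vert)))
    have h4 := (Finset.card_image_le (s := nets_line t s) (f := fun g => ((g, (t : ℤ)) : Vert)))
    refine (Finset.card_union_le _ _).trans ?_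
    refine (Nat.add_le_add (Finset.card_union_le _ _) (Finset.card_union_le _ _)).trans ?_
    omega

/-- Grids of balls with boundedly many points. -/
theorem exists_grid (t s : ℕ) (hs : 1 ≤ s) :
    ∃ V : Finset Vert, (∀ u ∈ ball 0 t, ∃ v ∈ V, u ∈ ball v s) ∧
      V.card ≤ (2 * t / s + 2) ^ 2 := by
  classical
  refine ⟨nets_line t s ×ˢ nets_line t s, ?_, ?_⟩
  · intro u hu
    simp only [mem_ball, Prod.fst_zero, Prod.snd_zero] at hu
    obtain ⟨g, hg, hg2⟩ := nets_line_cov hs (x := u.1) (t := t) (by omega) (by omega)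
    obtain ⟨g', hg', hg2'⟩ := nets_line_cov hs (x := u.2) (t := t) (by omega) (by omega)
    refine ⟨(g, g'), Finset.mem_product.2 ⟨hg, hg'⟩, ?_⟩
    simp only [mem_ball]
    omega
  · rw [Finset.card_product, sq]
    have h := nets_line_card t s
    exact Nat.mul_le_mul (h.trans (by omega)) (h.trans (by omega))

end Pool.Agent.H57.EX
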