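import Pool.Agent.H57.EX.Walk
import Pool.Agent.H57.EX.Chain

/-!
# Sealing of the first cluster
-/

open MeasureTheory ProbabilityTheory unitInterval

namespace Pool.Agent.H57.EX

open Pool.Agent.H89.Perc Pool.Agent.H61.NC Pool.Agent.H29.Sep

private lemma stage2a_seal_sub {Z : Dat} {s : ℕ} {V : Finset Vert} {G S1 S2 S3 : Set Vert} :
    {ω | ∀ v ∈ V, ω ∉ ArmBox v s (3 * s)} ⊆ SealP Z s V G S1 S2 S3 :=
  fun ω hω => ⟨ω, fun _ _ => rfl, fun v hv _ => hω v hv⟩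

private lemma stage2a_local {Z : Dat} {s : ℕ} {V : Finset Vert} {G S1 S2 S3 : Set Vert}
    [DecidableEq Edge] :
    LocalOn ((V.biUnion fun v => eRect (v.1 - (3 * s : ℕ)) (v.1 + (3 * s : ℕ))
      (v.2 - (3 * s : ℕ)) (v.2 + (3 * s : ℕ))) \ touch (eIn Z.R G) (S1 ∪ S2 ∪ S3))
      (SealP Z s V G S1 S2 S3) := by
  intro ω ω₂ hω hA
  obtain ⟨ω', h1, h2⟩ := hA
  refine ⟨fun e => if e ∈ touch (eIn Z.R G) (S1 ∪ S2 ∪ S3) then ω' e else ω₂ e, ?_, ?_⟩
  · intro e he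
    simp only [if_neg he]
  · intro v hv hne hcon
    refine h2 v hv hne ?_
    refine localOn_armBox v s (3 * s) _ _ (fun e he => ?_) hcon
    split_ifs with he'
    · rfl
    · rw [h1 e he', hω e]
      exact Finset.mem_sdiff.2 ⟨Finset.mem_biUnion.2 ⟨v, hv, he⟩, he'⟩

private lemma stage2a_noarm_local {s : ℕ} {V : Finset Vert} [DecidableEq Edge] :
    LocalOn (V.biUnion fun v => eRect (v.1 - (3 * s : ℕ)) (v.1 + (3 * s : ℕ))
      (v.2 - (3 * s : ℕ)) (v.2 + (3 * s : ℕ))) {ω | ∀ v ∈ V, ω ∉ ArmBox v s (3 * s)} := by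
  intro ω ω' hω hA v hv hcon
  refine hA v hv (localOn_armBox v s (3 * s) _ _ (fun e he => ?_) hcon)
  exact (hω e (Finset.mem_biUnion.2 ⟨v, hv, he⟩)).symm

private lemma stage2a_noarm_incr {s : ℕ} {V : Finset Vert} :
    Incr {ω | ∀ v ∈ V, ω ∉ ArmBox v s (3 * s)}ᶜ := by
  intro ω ω' hω hA hB
  refine hA fun v hv hcon => hB v hv (incr_armBox v s (3 * s) ω ω' hω hcon)

/-- Sealing, for any condition `P` on the values of the three clusters. -/
theorem stage2a {Z : Dat} {s : ℕ} {V : Finset Vert} {G : Set Vert} (hG : G ⊆ Z.W)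
    (P : Set Vert → Set Vert → Set Vert → Prop) {q : I} {c : ℝ} (hc : 0 ≤ c)
    (hP : c ≤ Pr q {ω | ∀ v ∈ V, ω ∉ ArmBox v s (3 * s)}) :
    c * PrE q Z.E {ω | P (cl ω G {Z.x}) (cl ω G {Z.y}) (cl ω G Z.T)} ≤
      PrE q Z.E ({ω | P (cl ω G {Z.x}) (cl ω G {Z.y}) (cl ω G Z.T)} ∩ Seal Z s V G) := by
  classical
  have hGR : G ⊆ ball 0 Z.R := hG.trans Z.hWR
  have hfin : G.Finite := by
    refine Set.Finite.subset (Set.Finite.subset
      (Finset.finite_toSet (Finset.Icc (-(Z.R : ℤ)) Z.R ×ˢ Finset.Icc (-(Z.R : ℤ)) Z.R)) ?_) hGR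
    intro v hv
    simp only [ball, rect, Set.mem_ofPred_eq, Prod.fst_zero, Prod.snd_zero, zero_sub, zero_add]
      at hv
    simp only [Finset.coe_product, Finset.coe_Icc, Set.mem_prod, Set.mem_Icc]
    omega
  set Q : Finset (Set Vert) := hfin.finite_subsets.toFinset with hQ
  have hmemQ : ∀ S : Set Vert, S ∈ Q ↔ S ⊆ G := by
    intro S
    rw [hQ, Set.Finite.mem_toFinset]
    rfl
  set F : Finset (Set Vert × Set Vert × Set Vert) :=
    (Q ×ˢ Q ×ˢ Q).filter (fun i => P i.1 i.2.1 i.2.2) with hF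
  set X : Set Vert × Set Vert × Set Vert → Set Config :=
    fun i => {ω | cl ω G {Z.x} = i.1} ∩ ({ω | cl ω G {Z.y} = i.2.1} ∩ {ω | cl ω G Z.T = i.2.2})
    with hX
  set tX : Set Vert × Set Vert × Set Vert → Finset Edge :=
    fun i => touch (eIn Z.R G) (i.1 ∪ i.2.1 ∪ i.2.2) with htX
  set tO : Set Vert × Set Vert × Set Vert → Finset Edge :=
    fun i => (V.biUnion fun v => eRect (v.1 - (3 * s : ℕ)) (v.1 + (3 * s : ℕ))
      (v.2 - (3 * s : ℕ)) (v.2 + (3 * s : ℕ))) \ tX i with htO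
  set O : Set Vert × Set Vert × Set Vert → Set Config :=
    fun i => SealP Z s V G i.1 i.2.1 i.2.2 with hO
  have hmemE : ∀ e, src e ∈ G → tgt e ∈ G → e ∈ eIn Z.R G :=
    fun e h1 h2 => (mem_eIn hGR).2 ⟨h1, h2⟩
  have htouch : ∀ S S' : Set Vert, S ⊆ S' → touch (eIn Z.R G) S ⊆ touch (eIn Z.R G) S' := by
    intro S S' hSS e he
    rw [mem_touch] at he ⊢
    exact ⟨he.1, he.2.imp (fun h => hSS h) (fun h => hSS h)⟩
  have key := cond_indepE (q := q) (E := Z.E) F X O tX tO hc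
    (by
      intro i _ j _ hij
      rw [Set.disjoint_left]
      rintro ω ⟨h1, h2, h3⟩ ⟨h4, h5, h6⟩
      refine hij ?_
      simp only [Set.mem_ofPred_eq] at h1 h2 h3 h4 h5 h6
      exact Prod.ext (h1.symm.trans h4) (Prod.ext (h2.symm.trans h5) (h3.symm.trans h6)))
    (by
      intro i _
      refine LocalOn.inter ?_ (LocalOn.inter ?_ ?_)
      · exact (localOn_cl hmemE).mono (htouch _ _ fun v hv => Or.inl (Or.inl hv))
      · exact (localOn_cl hmemE).mono (htouch _ _ fun v hv => Or.inl (Or.inr hv))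
      · exact (localOn_cl hmemE).mono (htouch _ _ fun v hv => Or.inr hv))
    (by
      intro i _
      exact stage2a_local)
    (by
      intro i _
      exact Finset.disjoint_sdiff)
    (by
      intro i _
      exact hP.trans ((le_PrE_of_decr stage2a_noarm_local stage2a_noarm_incr).trans
        (PrE_mono stage2a_seal_sub)))
  refine (mul_le_mul_of_nonneg_left (PrE_mono ?_) hc).trans (key.trans (PrE_mono ?_))
  · intro ω hω
    simp only [Set.mem_iUnion]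
    refine ⟨(cl ω G {Z.x}, cl ω G {Z.y}, cl ω G Z.T), ?_, rfl, rfl, rfl⟩
    rw [hF, Finset.mem_filter]
    refine ⟨?_, hω⟩
    simp only [Finset.mem_product, hmemQ]
    exact ⟨cl_sub, cl_sub, cl_sub⟩
  · intro ω hω
    simp only [Set.mem_iUnion] at hω
    obtain ⟨i, hi, ⟨h1, h2, h3⟩, h4⟩ := hω
    rw [hF, Finset.mem_filter] at hi
    simp only [Set.mem_ofPred_eq] at h1 h2 h3
    refine ⟨?_, ?_⟩
    · change P (cl ω G {Z.x}) (cl ω G {Z.y}) (cl ω G Z.T)
      rw [h1, h2, h3]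
      exact hi.2
    · change ω ∈ SealP Z s V G (cl ω G {Z.x}) (cl ω G {Z.y}) (cl ω G Z.T)
      rw [h1, h2, h3]
      exact h4

end Pool.Agent.H57.EX
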