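import Pool.Agent.H57.EX.Walk
import Pool.Agent.H57.EX.Chain

/-!
# Second gluing: `y` is glued to `T`
-/

open MeasureTheory ProbabilityTheory unitInterval

namespace Pool.Agent.H57.EX

open Pool.Agent.H89.Perc Pool.Agent.H61.NC Pool.Agent.H29.Sep

private theorem s2b_ball_finite (v : Vert) (r : ℕ) : (ball v r).Finite := by
  refine Set.Finite.subset ((Set.finite_Icc (v.1 - r) (v.1 + r)).prod
    (Set.finite_Icc (v.2 - r) (v.2 + r))) ?_
  rintro ⟨a, b⟩ ⟨h1, h2, h3, h4⟩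
  exact ⟨⟨h1, h2⟩, ⟨h3, h4⟩⟩

private theorem s2b_B_sub_W (Z : Dat) : Z.B ⊆ Z.W := fun v hv => by
  refine Z.hBW ?_
  exact ball_mono (by omega) hv

/-- Deterministic part of the second gluing. -/
private theorem stage2b_det {Z : Dat} {s n : ℕ} {γ : ℕ → Vert} {β β' : Vert} (hs : 1 ≤ s)
    (hsm : 100 * s ≤ Z.m) (hβ : β ∈ sphere 0 (4 * Z.m)) (hβ' : β' ∈ sphere 0 (16 * Z.m))
    (hg : ZGood Z.m s γ n β β') {ω : Config} {S : Set Vert}
    (hS : Disjoint S (zone γ n s)) (ho : ω ∈ AllCirc γ n s) {u w v : Vert}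
    (hu : u ∈ ball β s) (hyu : Conn ω (Z.B \ S) Z.y u) (hw : w ∈ Z.T)
    (hv : v ∈ ball β' s) (hwv : Conn ω (Z.D \ S) w v) :
    Conn ω (GG Z s γ n \ S) Z.y w := by
  have hm := Z.hm
  have hnb : nrm β = 4 * Z.m := by
    have := mem_sphere_zero.1 hβ
    push_cast at this
    exact this
  have hnb' : nrm β' = 16 * Z.m := by
    have := mem_sphere_zero.1 hβ'
    push_cast at this
    exact this
  have hy2 : nrm Z.y ≤ 2 := by
    have := mem_ball_zero.1 Z.hy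
    push_cast at this
    exact this
  have hyb : Z.y ∉ ball β (3 * s) := fun hx => by
    have := le_nrm_of_mem_ball hx
    push_cast at this
    omega
  have hwb : w ∉ ball β' (3 * s) := fun hx => by
    have h1 := nrm_le_of_mem_ball hx
    have h2 := (Z.hT w hw).2
    push_cast at h1
    omega
  refine (chain_glue hs hg.chain ho hyu hyb hu hwv hwb hv).mono_set ?_
  rintro p ((hp | hp) | hp)
  · exact ⟨Or.inl (Or.inl hp.1), hp.2⟩
  · exact ⟨Or.inl (Or.inr hp.1), hp.2⟩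
  · exact ⟨Or.inr hp, fun h => Set.disjoint_left.1 hS h hp⟩

/-- Second gluing. -/
theorem stage2b {Z : Dat} {s n : ℕ} {γ : ℕ → Vert} {β β' : Vert} (hs : 1 ≤ s)
    (hsm : 100 * s ≤ Z.m) (hβ : β ∈ sphere 0 (4 * Z.m)) (hβ' : β' ∈ sphere 0 (16 * Z.m))
    (hg : ZGood Z.m s γ n β β') {q : I} {c : ℝ} (hc : 0 ≤ c)
    (hP : c ≤ Pr q (AllCirc γ n s)) :
    c * PrE q Z.E (E2 Z s γ n β β') ≤ PrE q Z.E (Fin Z s γ n) := by
  classical
  have hm := Z.hm
  have hWf : Z.W.Finite := (s2b_ball_finite 0 Z.R).subset Z.hWR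
  have hsB : ∀ e, src e ∈ Z.B → tgt e ∈ Z.B → e ∈ eIn Z.R Z.W :=
    fun e h1 h2 => (mem_eIn Z.hWR).2 ⟨s2b_B_sub_W Z h1, s2b_B_sub_W Z h2⟩
  have hsD : ∀ e, src e ∈ Z.D → tgt e ∈ Z.D → e ∈ eIn Z.R Z.W :=
    fun e h1 h2 => (mem_eIn Z.hWR).2 ⟨Z.hDW h1, Z.hDW h2⟩
  have hsW : ∀ e, src e ∈ Z.W → tgt e ∈ Z.W → e ∈ eIn Z.R Z.W :=
    fun e h1 h2 => (mem_eIn Z.hWR).2 ⟨h1, h2⟩
  let F : Finset (Set Vert) :=
    hWf.finite_subsets.toFinset.filter (fun S =>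
      (S ∩ Z.L).Nonempty ∧ Disjoint S (zone γ n s))
  let X : Set Vert → Set Config := fun S => {ω | cl ω Z.W {Z.x} = S}
  let A : Set Vert → Set Config := fun S =>
    {ω | (∃ u ∈ ball β s, Conn ω (Z.B \ S) Z.y u) ∧
      ∃ w ∈ Z.T, ∃ v ∈ ball β' s, Conn ω (Z.D \ S) w v}
  have hF : ∀ S ∈ F, (S ∩ Z.L).Nonempty ∧ Disjoint S (zone γ n s) :=
    fun S hS => (Finset.mem_filter.1 hS).2
  have key := cond_fkgE (q := q) (E := Z.E) F X A (fun _ => AllCirc γ n s)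
    (fun S => touch (eIn Z.R Z.W) S) (fun S => off (eIn Z.R Z.W) S)
    (fun _ => eZone γ n s) hc ?_ ?_ ?_ ?_ ?_ ?_ ?_ ?_ ?_
  · refine le_trans (mul_le_mul_of_nonneg_left (PrE_mono ?_) hc) (key.trans (PrE_mono ?_))
    · rintro ω ⟨hL, hd, hy, hT⟩
      refine Set.mem_biUnion (x := cl ω Z.W {Z.x}) ?_ ⟨rfl, hy, hT⟩
      exact Finset.mem_filter.2 ⟨(Set.Finite.mem_toFinset _).2 cl_sub, hL, hd⟩
    · intro ω hω
      simp only [Set.mem_iUnion] at hω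
      obtain ⟨S, hS, hX, ⟨⟨u, hu, hyu⟩, w, hw, v, hv, hwv⟩, hO⟩ := hω
      obtain ⟨k1, k2⟩ := hF S hS
      have hX' : cl ω Z.W {Z.x} = S := hX
      refine ⟨?_, w, hw, ?_⟩
      · rw [hX']; exact k1
      · rw [hX']
        exact stage2b_det hs hsm hβ hβ' hg k2 hO hu hyu hw hv hwv
  · intro i _ j _ hij
    rw [Set.disjoint_left]
    intro ω h1 h2
    have h1' : cl ω Z.W {Z.x} = i := h1
    have h2' : cl ω Z.W {Z.x} = j := h2
    exact hij (h1'.symm.trans h2')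
  · intro i _
    exact localOn_cl hsW
  · rintro i - ω ω' h ⟨⟨u, hu, hyu⟩, w, hw, v, hv, hwv⟩
    exact ⟨⟨u, hu, localOn_conn_off hsB ω ω' h hyu⟩, w, hw, v, hv,
      localOn_conn_off hsD ω ω' h hwv⟩
  · intro i _
    exact localOn_allCirc γ n s
  · rintro i - ω ω' h ⟨⟨u, hu, hyu⟩, w, hw, v, hv, hwv⟩
    exact ⟨⟨u, hu, hyu.mono le_rfl h⟩, w, hw, v, hv, hwv.mono le_rfl h⟩
  · intro i _
    exact incr_allCirc γ n s
  · intro i _
    exact touch_disj _ _ _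
  · intro i hi
    obtain ⟨k1, k2⟩ := hF i hi
    rw [Finset.disjoint_left]
    intro e h1 h2
    obtain ⟨h3, h4⟩ := mem_touch.1 h1
    obtain ⟨h7, h8⟩ := mem_eZone h2
    rcases h4 with h4 | h4
    · exact Set.disjoint_left.1 k2 h4 h7
    · exact Set.disjoint_left.1 k2 h4 h8
  · intro i _
    have hd : Disjoint (eZone γ n s) Z.E := by
      rw [Finset.disjoint_left]
      intro e h1 h2
      have h3 := hg.low _ (mem_eZone h1).1
      have h4 := mem_ball_zero.1 (Z.hE e h2).1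
      push_cast at h4
      omega
    rw [PrE_eq (localOn_allCirc γ n s) hd]
    exact hP

end Pool.Agent.H57.EX
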