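import Pool.Agent.H29.Sep.Iface
import Pool.Agent.H29.Sep.Tools

/-!
# Gluing of four arms in the plane (GLT): definitions

The inner domain is `ball 0 (4 m)`, the outer domain is a finite vertex set `D` whose points have norm
at least `16 m`.  Everything is formulated for configurations in which some edges (the set `E`) near
the origin have been closed; the corresponding probability is `PrE`.
-/

open MeasureTheory ProbabilityTheory unitInterval

namespace Pool.Agent.H57.EX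

open Pool.Agent.H89.Perc Pool.Agent.H61.NC Pool.Agent.H29.Sep

/-- Sup norm. -/
def nrm (v : Vert) : ℤ := max |v.1| |v.2|

/-- Probability when the edges of `E` are closed. -/
noncomputable def PrE (q : I) (E : Finset Edge) (A : Set Config) : ℝ := Pr q {ω | shut E ω ∈ A}

/-- The edges with both endpoints in `D` (for `D ⊆ ball 0 R`). -/
noncomputable def eIn (R : ℕ) (D : Set Vert) : Finset Edge := by
  classical exact (eRect (-(R : ℤ)) R (-(R : ℤ)) R).filter (fun e => src e ∈ D ∧ tgt e ∈ D)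

/-- Data of the gluing: two vertices `x`, `y` near the origin, a finite set `E` of closed edges near
the origin, the scale `m`, the outer domain `D`, the universe `W`, and the terminals `L`, `T`. -/
structure Dat where
  x : Vert
  y : Vert
  E : Finset Edge
  m : ℕ
  R : ℕ
  D : Set Vert
  W : Set Vert
  L : Set Vert
  T : Set Vert
  hx : x ∈ ball 0 2
  hy : y ∈ ball 0 2
  hE : ∀ e ∈ E, src e ∈ ball 0 2 ∧ tgt e ∈ ball 0 2
  hm : 10 ≤ m
  hD : ∀ v ∈ D, 16 * (m : ℤ) ≤ nrm v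
  hDW : D ⊆ W
  hBW : ball 0 (17 * m) ⊆ W
  hWD : ∀ v ∈ W, v ∉ ball 0 (19 * m) → v ∈ D
  hWR : W ⊆ ball 0 R
  hL : ∀ v ∈ L, v ∈ D ∧ 17 * (m : ℤ) < nrm v
  hT : ∀ v ∈ T, v ∈ D ∧ 17 * (m : ℤ) < nrm v

/-- The inner domain. -/
def Dat.B (Z : Dat) : Set Vert := ball 0 (4 * Z.m)

/-- The places of the outer side where two clusters must not be close to each other. -/
def Dat.Bd (Z : Dat) : Set Vert :=
  sphere 0 (16 * Z.m) ∪ {v | v ∈ Z.D ∧ ∃ e w, Joins e v w ∧ w ∈ Z.W ∧ w ∉ Z.D}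

/-- Four arms: `x` and `y` are joined to the sphere of radius `r` and not joined to each other inside
the ball of radius `r`. -/
def Four (x y : Vert) (r : ℕ) : Set Config :=
  {ω | (∃ u ∈ sphere 0 r, Conn ω (ball 0 r) x u) ∧ (∃ u ∈ sphere 0 r, Conn ω (ball 0 r) y u) ∧
    ¬ Conn ω (ball 0 r) x y}

/-- Two-terminal event in the domain `D`: a cluster touching `L` and not touching `T` reaches the
sphere of radius `t`, and a cluster touching `T` reaches this sphere. -/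
def Out (D L T : Set Vert) (t : ℕ) : Set Config :=
  {ω | (∃ u ∈ L, ∃ v ∈ sphere 0 t, Conn ω D u v ∧ ∀ w ∈ T, ¬ Conn ω D u w) ∧
    ∃ w ∈ T, ∃ v ∈ sphere 0 t, Conn ω D w v}

/-- The clusters of `x` and `y` in the inner domain are both near to a point of the inner sphere. -/
def NearIn (Z : Dat) (t : ℕ) : Set Config :=
  {ω | ∃ z ∈ sphere 0 (4 * Z.m), (cl ω Z.B {Z.x} ∩ ball z t).Nonempty ∧
    (cl ω Z.B {Z.y} ∩ ball z t).Nonempty}

/-- A cluster of `L` and a cluster of `T` in the outer domain are both near to a point of the outer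
sphere. -/
def NearOut (Z : Dat) (t : ℕ) : Set Config :=
  {ω | ∃ z ∈ sphere 0 (16 * Z.m), ∃ u ∈ Z.L, u ∉ cl ω Z.D Z.T ∧
    (cl ω Z.D {u} ∩ ball z t).Nonempty ∧ (cl ω Z.D Z.T ∩ ball z t).Nonempty}

/-- A chain of centres from `b` to `b'` with steps at most `2 s`. -/
structure Chain (γ : ℕ → Vert) (n s : ℕ) (b b' : Vert) : Prop where
  h0 : γ 0 = b
  hn : γ n = b'
  step : ∀ i < n, γ (i + 1) ∈ ball (γ i) (2 * s)

/-- The zone of a chain. -/
def zone (γ : ℕ → Vert) (n s : ℕ) : Set Vert := {w | ∃ i ≤ n, w ∈ ball (γ i) (3 * s)}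

/-- Open circuits around all the centres of the chain. -/
def AllCirc (γ : ℕ → Vert) (n s : ℕ) : Set Config := {ω | ∀ i ≤ n, ω ∈ Circ (γ i) s}

/-- The edges on which `AllCirc` depends. -/
noncomputable def eZone (γ : ℕ → Vert) (n s : ℕ) : Finset Edge := by
  classical exact (Finset.range (n + 1)).biUnion (fun i => eCirc (γ i) s)

/-- Properties of the chains used for the gluing between the spheres of radii `4 m` and `16 m`. -/
structure ZGood (m s : ℕ) (γ : ℕ → Vert) (n : ℕ) (b b' : Vert) : Prop where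
  chain : Chain γ n s b b'
  inner : ∀ w ∈ zone γ n s, nrm w ≤ 4 * m + 5 * s → w ∈ ball b (20 * s)
  outer : ∀ w ∈ zone γ n s, 16 * (m : ℤ) - 5 * s ≤ nrm w → w ∈ ball b' (20 * s)
  low : ∀ w ∈ zone γ n s, 3 * (m : ℤ) ≤ nrm w
  bdd : ∀ w ∈ zone γ n s, nrm w ≤ 17 * m

/-- Existence of the chains. -/
def Geo : Prop :=
  ∃ k₀ : ℕ, 1 ≤ k₀ ∧ ∀ k : ℕ, k₀ ≤ k → ∃ n₁ k₁ : ℕ, ∀ k' : ℕ, k₁ ≤ k' → ∃ n₂ m₀ : ℕ,
    ∀ m : ℕ, m₀ ≤ m → ∀ b ∈ sphere 0 (4 * m), ∀ b' ∈ sphere 0 (16 * m), ∃ γ : ℕ → Vert,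
      ZGood m (m / k) γ n₁ b b' ∧
      ∀ β ∈ sphere 0 (4 * m), β ∉ ball b (30 * (m / k)) →
      ∀ β' ∈ sphere 0 (16 * m), β' ∉ ball b' (30 * (m / k)) → ∃ γ' : ℕ → Vert,
        ZGood m (m / k') γ' n₂ β β' ∧
        ∀ w ∈ zone γ' n₂ (m / k'), ∀ z ∈ zone γ n₁ (m / k), w ∉ ball z (8 * (m / k'))

/-- `N` is a net of mesh `s` of the sphere of radius `t`. -/
structure IsNet (N : Finset Vert) (t s : ℕ) : Prop where
  sub : ∀ v ∈ N, v ∈ sphere 0 t
  cov : ∀ u ∈ sphere 0 t, ∃ v ∈ N, u ∈ ball v s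

/-- First event: landing of `x` near `b`, of a cluster of `L` near `b'`, and the clusters of `y` and
of `T` are far from these points. -/
def E0 (Z : Dat) (s : ℕ) (b b' : Vert) : Set Config :=
  {ω | (∃ u ∈ ball b s, Conn ω Z.B Z.x u) ∧ Z.x ∉ cl ω Z.B {Z.y} ∧
    (∃ u ∈ Z.L, u ∉ cl ω Z.D Z.T ∧ ∃ w ∈ ball b' s, Conn ω Z.D u w) ∧
    (cl ω Z.B {Z.y} ∩ sphere 0 (4 * Z.m)).Nonempty ∧
    (cl ω Z.D Z.T ∩ sphere 0 (16 * Z.m)).Nonempty ∧
    Disjoint (cl ω Z.B {Z.y}) (ball b (38 * s)) ∧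
    Disjoint (cl ω Z.D Z.T) (ball b' (38 * s))}

/-- The glued domain. -/
def GG (Z : Dat) (s : ℕ) (γ : ℕ → Vert) (n : ℕ) : Set Vert := Z.B ∪ Z.D ∪ zone γ n s

/-- The three clusters after the first gluing: conditions on their values. -/
def P1 (Z : Dat) (s : ℕ) (b b' : Vert) (S1 S2 S3 : Set Vert) : Prop :=
  (S1 ∩ Z.L).Nonempty ∧ (S2 ∩ sphere 0 (4 * Z.m)).Nonempty ∧
    (S3 ∩ sphere 0 (16 * Z.m)).Nonempty ∧ S2 ⊆ Z.B ∧ S3 ⊆ Z.D ∧
    Disjoint S2 (ball b (38 * s)) ∧ Disjoint S3 (ball b' (38 * s)) ∧ Disjoint S1 S2 ∧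
    Disjoint S1 S3

/-- Second event: `x` is glued to `L` in the glued domain `G`. -/
def E1 (Z : Dat) (s : ℕ) (b b' : Vert) (G : Set Vert) : Set Config :=
  {ω | P1 Z s b b' (cl ω G {Z.x}) (cl ω G {Z.y}) (cl ω G Z.T)}

/-- The clusters are not near to each other at the scale `t`. -/
def NBp (Z : Dat) (t : ℕ) (S1 S2 S3 : Set Vert) : Prop :=
  (∀ z ∈ sphere 0 (4 * Z.m), (S1 ∩ ball z t).Nonempty → ¬ (S2 ∩ ball z t).Nonempty) ∧
    ∀ z ∈ Z.Bd, (S1 ∩ ball z t).Nonempty → ¬ (S3 ∩ ball z t).Nonempty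

/-- The clusters of the glued domain are not near to each other at the scale `t`. -/
def NB (Z : Dat) (t : ℕ) (G : Set Vert) : Set Config :=
  {ω | NBp Z t (cl ω G {Z.x}) (cl ω G {Z.y}) (cl ω G Z.T)}

/-- Vertices of `S1` with an edge leaving the glued domain. -/
def Exits (W G S1 : Set Vert) : Set Vert := {v | v ∈ S1 ∧ ∃ e w, Joins e v w ∧ w ∈ W ∧ w ∉ G}

/-- The sealing event for given values of the clusters: for some values of the determined edges, no
ball containing an exit is joined to distance `3 s`. -/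
def SealP (Z : Dat) (s : ℕ) (V : Finset Vert) (G S1 S2 S3 : Set Vert) : Set Config :=
  {ω | ∃ ω' : Config, (∀ e ∉ touch (eIn Z.R G) (S1 ∪ S2 ∪ S3), ω' e = ω e) ∧
    ∀ v ∈ V, (Exits Z.W G S1 ∩ ball v s).Nonempty → ω' ∉ ArmBox v s (3 * s)}

/-- The sealing event. -/
def Seal (Z : Dat) (s : ℕ) (V : Finset Vert) (G : Set Vert) : Set Config :=
  {ω | ω ∈ SealP Z s V G (cl ω G {Z.x}) (cl ω G {Z.y}) (cl ω G Z.T)}

/-- Third event: the cluster of `x` in the universe meets `L`, avoids the zone of the chain `γ'`, and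
off this cluster `y` and `T` reach the ends of the chain. -/
def E2 (Z : Dat) (s : ℕ) (γ' : ℕ → Vert) (n : ℕ) (β β' : Vert) : Set Config :=
  {ω | (cl ω Z.W {Z.x} ∩ Z.L).Nonempty ∧ Disjoint (cl ω Z.W {Z.x}) (zone γ' n s) ∧
    (∃ u ∈ ball β s, Conn ω (Z.B \ cl ω Z.W {Z.x}) Z.y u) ∧
    ∃ w ∈ Z.T, ∃ v ∈ ball β' s, Conn ω (Z.D \ cl ω Z.W {Z.x}) w v}

/-- Final event: `x` is joined to `L`, and `y` is joined to `T` off the cluster of `x`. -/
def Fin (Z : Dat) (s : ℕ) (γ' : ℕ → Vert) (n : ℕ) : Set Config :=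
  {ω | (cl ω Z.W {Z.x} ∩ Z.L).Nonempty ∧
    ∃ w ∈ Z.T, Conn ω (GG Z s γ' n \ cl ω Z.W {Z.x}) Z.y w}

/-- The data of the planar gluing with terminals on the sphere of radius `R`. -/
def std (m R : ℕ) (L T : Set Vert) (hm : 10 ≤ m) (hR : 64 * m ≤ R) (hL : L ⊆ sphere 0 R)
    (hT : T ⊆ sphere 0 R) : Dat where
  x := 0
  y := (1, 0)
  E := {(0, 0, false)}
  m := m
  R := R
  D := dom (16 * m) R
  W := ball 0 R
  L := L
  T := T
  hx := by simp [ball, rect]
  hy := by simp [ball, rect]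
  hE := by simp [ball, rect, src, tgt]
  hm := hm
  hD := by
    intro v hv
    have h := hv.2
    simp only [ball, rect, Set.mem_setOf_eq, Prod.fst_zero, Prod.snd_zero, not_and_or, not_le,
      nrm] at h ⊢
    rcases abs_cases v.1 with h1 | h1 <;> rcases abs_cases v.2 with h2 | h2 <;> omega
  hDW := fun v hv => hv.1
  hBW := by
    intro v hv
    simp only [ball, rect, Set.mem_setOf_eq, Prod.fst_zero, Prod.snd_zero] at hv ⊢
    omega
  hWD := by
    intro v hv hv'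
    refine ⟨hv, fun h => hv' ?_⟩
    simp only [ball, rect, Set.mem_setOf_eq, Prod.fst_zero, Prod.snd_zero] at h ⊢
    omega
  hWR := fun v hv => hv
  hL := by
    intro v hv
    have h := hL hv
    simp only [sphere, dom, nrm, ball, rect, Set.mem_setOf_eq, Prod.fst_zero, Prod.snd_zero,
      Set.mem_diff] at h ⊢
    rcases abs_cases v.1 with h1 | h1 <;> rcases abs_cases v.2 with h2 | h2 <;> omega
  hT := by
    intro v hv
    have h := hT hv
    simp only [sphere, dom, nrm, ball, rect, Set.mem_setOf_eq, Prod.fst_zero, Prod.snd_zero,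
      Set.mem_diff] at h ⊢
    rcases abs_cases v.1 with h1 | h1 <;> rcases abs_cases v.2 with h2 | h2 <;> omega

end Pool.Agent.H57.EX
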