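import Pool.Agent.H57.EX.Defs

/-!
# Geo: passage from `ℤ × ℤ` to `ℝ × ℝ` with the sup norm, polar coordinates of the sup norm
-/

namespace Pool.Agent.H57.EX

open Pool.Agent.H89.Perc Pool.Agent.H61.NC Pool.Agent.H29.Sep

/-- A vertex as a point of the real plane. -/
def toR (v : Vert) : ℝ × ℝ := ((v.1 : ℝ), (v.2 : ℝ))

/-- Rounding. -/
noncomputable def rd (z : ℝ × ℝ) : Vert := (⌊z.1⌋, ⌊z.2⌋)

theorem rd_toR (v : Vert) : rd (toR v) = v := by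
  simp [rd, toR]

theorem norm_rd (z : ℝ × ℝ) : ‖toR (rd z) - z‖ ≤ 1 := by
  rw [Prod.norm_def]
  simp only [toR, rd, Prod.fst_sub, Prod.snd_sub, Real.norm_eq_abs]
  refine max_le ?_ ?_
  · rw [abs_le]
    have h1 := Int.floor_le z.1
    have h2 := Int.lt_floor_add_one z.1
    constructor <;> linarith
  · rw [abs_le]
    have h1 := Int.floor_le z.2
    have h2 := Int.lt_floor_add_one z.2
    constructor <;> linarith

theorem mem_ball_iff_norm {w z : Vert} {r : ℕ} : w ∈ ball z r ↔ ‖toR w - toR z‖ ≤ r := by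
  rw [Prod.norm_def, max_le_iff]
  simp only [toR, Prod.fst_sub, Prod.snd_sub, Real.norm_eq_abs, abs_le]
  have e1 : w ∈ ball z r ↔ (-(r : ℤ) ≤ w.1 - z.1 ∧ w.1 - z.1 ≤ r) ∧
      (-(r : ℤ) ≤ w.2 - z.2 ∧ w.2 - z.2 ≤ r) := by
    constructor
    · rintro ⟨h1, h2, h3, h4⟩
      refine ⟨⟨?_, ?_⟩, ?_, ?_⟩ <;> linarith
    · rintro ⟨⟨h1, h2⟩, h3, h4⟩
      refine ⟨?_, ?_, ?_, ?_⟩ <;> linarith
  rw [e1]
  have e2 : ∀ a b : ℤ, (-(r : ℝ) ≤ (a : ℝ) - b ∧ (a : ℝ) - b ≤ r) ↔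
      (-(r : ℤ) ≤ a - b ∧ a - b ≤ r) := by
    intro a b
    constructor
    · rintro ⟨h1, h2⟩
      exact ⟨by exact_mod_cast h1, by exact_mod_cast h2⟩
    · rintro ⟨h1, h2⟩
      exact ⟨by exact_mod_cast h1, by exact_mod_cast h2⟩
  rw [e2, e2]

theorem nrm_eq_norm (v : Vert) : (nrm v : ℝ) = ‖toR v‖ := by
  rw [Prod.norm_def]
  simp only [toR, nrm, Real.norm_eq_abs]
  push_cast
  rfl

theorem mem_sphere_iff_norm {v : Vert} {r : ℕ} : v ∈ sphere 0 r ↔ ‖toR v‖ = r := by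
  rw [← nrm_eq_norm]
  have e1 : (nrm v : ℝ) = r ↔ nrm v = r := by
    constructor
    · intro h
      exact_mod_cast h
    · intro h
      rw [h]
      rfl
  rw [e1]
  simp only [sphere, ball, rect, Set.mem_ofPred_eq, Prod.fst_zero, Prod.snd_zero, nrm]
  rcases abs_cases v.1 with h1 | h1 <;> rcases abs_cases v.2 with h2 | h2 <;>
    rcases max_cases |v.1| |v.2| with h3 | h3 <;> omega

theorem pol_norm {a : ℝ × ℝ} {l : ℝ} (hl : 0 ≤ l) (ha : ‖a‖ = 1) : ‖l • a‖ = l := by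
  rw [norm_smul, ha, mul_one, Real.norm_of_nonneg hl]

theorem pol_ge_abs {a b : ℝ × ℝ} {l l' : ℝ} (hl : 0 ≤ l) (hl' : 0 ≤ l') (ha : ‖a‖ = 1)
    (hb : ‖b‖ = 1) : |l - l'| ≤ ‖l • a - l' • b‖ := by
  have h1 := abs_norm_sub_norm_le (l • a) (l' • b)
  rwa [pol_norm hl ha, pol_norm hl' hb] at h1

theorem pol_ge {a b : ℝ × ℝ} {l l' : ℝ} (hl : 0 ≤ l) (hl' : 0 ≤ l') (ha : ‖a‖ = 1)
    (hb : ‖b‖ = 1) : l' * ‖a - b‖ ≤ 2 * ‖l • a - l' • b‖ := by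
  have h1 : l' * ‖a - b‖ = ‖l' • (a - b)‖ := by
    rw [norm_smul, Real.norm_of_nonneg hl']
  have h2 : l' • (a - b) = (l • a - l' • b) - (l - l') • a := by
    rw [smul_sub, sub_smul]
    abel
  have h3 : ‖(l - l') • a‖ = |l - l'| := by
    rw [norm_smul, ha, mul_one, Real.norm_eq_abs]
  have h4 := norm_sub_le (l • a - l' • b) ((l - l') • a)
  have h5 := pol_ge_abs hl hl' ha hb
  rw [h1, h2]
  rw [h3] at h4
  linarith

theorem pol_le {a b : ℝ × ℝ} {l l' : ℝ} (hl : 0 ≤ l) (_hl' : 0 ≤ l') (_ha : ‖a‖ = 1)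
    (hb : ‖b‖ = 1) :
    ‖l • a - l' • b‖ ≤ |l - l'| + l * ‖a - b‖ := by
  have h1 : l * ‖a - b‖ = ‖l • (a - b)‖ := by
    rw [norm_smul, Real.norm_of_nonneg hl]
  have h2 : l • a - l' • b = (l - l') • b + l • (a - b) := by
    rw [smul_sub, sub_smul]
    abel
  have h3 : ‖(l - l') • b‖ = |l - l'| := by
    rw [norm_smul, hb, mul_one, Real.norm_eq_abs]
  rw [h1, h2, ← h3]
  exact norm_add_le _ _

end Pool.Agent.H57.EX
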