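import Pool.Agent.H57.EX.GeoQ
import Pool.Agent.H57.EX.GeoR

/-!
# Existence of the chains (plane geometry)
-/

namespace Pool.Agent.H57.EX

open Pool.Agent.H89.Perc Pool.Agent.H61.NC Pool.Agent.H29.Sep

/-! ### Clamping -/

/-- Clamp to `[0, 1]`. -/
private noncomputable def gc (x : ℝ) : ℝ := max 0 (min x 1)

private lemma gc_nonneg (x : ℝ) : 0 ≤ gc x := le_max_left _ _

private lemma gc_le_one (x : ℝ) : gc x ≤ 1 := max_le (by norm_num) (min_le_right _ _)

private lemma gc_of_nonpos {x : ℝ} (h : x ≤ 0) : gc x = 0 := by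
  unfold gc
  rw [min_eq_left (by linarith), max_eq_left h]

private lemma gc_of_one_le {x : ℝ} (h : 1 ≤ x) : gc x = 1 := by
  unfold gc
  rw [min_eq_right h, max_eq_right (by norm_num)]

private lemma gc_lip (x y : ℝ) : |gc x - gc y| ≤ |x - y| := by
  unfold gc
  have h1 := abs_max_sub_max_le_max (0 : ℝ) (min x 1) 0 (min y 1)
  have h2 := abs_min_sub_min_le_max x 1 y 1
  simp only [sub_self, abs_zero] at h1 h2
  exact (h1.trans (max_le (abs_nonneg _) le_rfl)).trans (h2.trans (max_le le_rfl (abs_nonneg _)))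

/-! ### From curves to chains -/

private lemma geo_zgood {m s n : ℕ} {b b' : Vert} {c : ℕ → ℝ × ℝ} (h0 : c 0 = toR b)
    (hn : c n = toR b') (hs : ∀ i < n, ‖c (i + 1) - c i‖ + 2 ≤ 2 * (s : ℝ))
    (hlo : ∀ i ≤ n, 4 * (m : ℝ) ≤ ‖c i‖) (hhi : ∀ i ≤ n, ‖c i‖ ≤ 16 * (m : ℝ))
    (hin : ∀ i ≤ n, ‖c i‖ ≤ 4 * (m : ℝ) + 8 * s + 1 → ‖c i - toR b‖ ≤ 8 * s + 1)
    (hout : ∀ i ≤ n, 16 * (m : ℝ) - 8 * s - 1 ≤ ‖c i‖ → ‖c i - toR b'‖ ≤ 8 * s + 1)
    (hs1 : 1 ≤ s) (hsm : 3 * s + 1 ≤ m) : ZGood m s (fun i => rd (c i)) n b b' := by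
  have hs1' : (1 : ℝ) ≤ s := by exact_mod_cast hs1
  have hsm' : 3 * (s : ℝ) + 1 ≤ m := by exact_mod_cast hsm
  have hrd : ∀ i, ‖toR (rd (c i)) - c i‖ ≤ 1 := fun i => norm_rd (c i)
  have hz : ∀ w ∈ zone (fun i => rd (c i)) n s, ∃ i ≤ n, ‖toR w - c i‖ ≤ 3 * s + 1 := by
    rintro w ⟨i, hi, hw⟩
    rw [mem_ball_iff_norm] at hw
    push_cast at hw
    refine ⟨i, hi, ?_⟩
    have h1 := norm_sub_le_norm_sub_add_norm_sub (toR w) (toR (rd (c i))) (c i)
    have h2 := hrd i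
    linarith
  have hnrm : ∀ w : Vert, ∀ i, |‖toR w‖ - ‖c i‖| ≤ ‖toR w - c i‖ := fun w i =>
    abs_norm_sub_norm_le _ _
  refine ⟨⟨?_, ?_, ?_⟩, ?_, ?_, ?_, ?_⟩
  · simp only [h0, rd_toR]
  · simp only [hn, rd_toR]
  · intro i hi
    rw [mem_ball_iff_norm]
    push_cast
    have h1 := hs i hi
    have h2 := hrd i
    have h3 := hrd (i + 1)
    have h4 : toR (rd (c (i + 1))) - toR (rd (c i)) =
        (toR (rd (c (i + 1))) - c (i + 1)) + (c (i + 1) - c i) - (toR (rd (c i)) - c i) := by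
      abel
    rw [h4]
    have h5 := norm_sub_le ((toR (rd (c (i + 1))) - c (i + 1)) + (c (i + 1) - c i))
      (toR (rd (c i)) - c i)
    have h6 := norm_add_le (toR (rd (c (i + 1))) - c (i + 1)) (c (i + 1) - c i)
    linarith
  · intro w hw hw2
    obtain ⟨i, hi, h1⟩ := hz w hw
    rw [mem_ball_iff_norm]
    push_cast
    have h2 : (nrm w : ℝ) ≤ 4 * m + 5 * s := by exact_mod_cast hw2
    rw [nrm_eq_norm] at h2
    have h3 := hnrm w i
    rw [abs_le] at h3
    have h4 := hin i hi (by linarith)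
    have h5 := norm_sub_le_norm_sub_add_norm_sub (toR w) (c i) (toR b)
    linarith
  · intro w hw hw2
    obtain ⟨i, hi, h1⟩ := hz w hw
    rw [mem_ball_iff_norm]
    push_cast
    have h2 : 16 * (m : ℝ) - 5 * s ≤ (nrm w : ℝ) := by exact_mod_cast hw2
    rw [nrm_eq_norm] at h2
    have h3 := hnrm w i
    rw [abs_le] at h3
    have h4 := hout i hi (by linarith)
    have h5 := norm_sub_le_norm_sub_add_norm_sub (toR w) (c i) (toR b')
    linarith
  · intro w hw
    obtain ⟨i, hi, h1⟩ := hz w hw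
    have h3 := hnrm w i
    rw [abs_le] at h3
    have h4 := hlo i hi
    have h5 : 3 * (m : ℝ) ≤ (nrm w : ℝ) := by
      rw [nrm_eq_norm]
      linarith
    exact_mod_cast h5
  · intro w hw
    obtain ⟨i, hi, h1⟩ := hz w hw
    have h3 := hnrm w i
    rw [abs_le] at h3
    have h4 := hhi i hi
    have h5 : (nrm w : ℝ) ≤ 17 * (m : ℝ) := by
      rw [nrm_eq_norm]
      linarith
    exact_mod_cast h5

private lemma geo_sep {s s' n n' : ℕ} {c c' : ℕ → ℝ × ℝ}
    (h : ∀ i ≤ n, ∀ j ≤ n', 6 * (s : ℝ) ≤ ‖c' j - c i‖) (hss : 11 * (s' : ℝ) + 2 < 3 * s) :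
    ∀ w ∈ zone (fun i => rd (c' i)) n' s', ∀ z ∈ zone (fun i => rd (c i)) n s,
      w ∉ ball z (8 * s') := by
  rintro w ⟨j, hj, hw⟩ z ⟨i, hi, hz⟩ hwz
  rw [mem_ball_iff_norm] at hw hz hwz
  push_cast at hw hz hwz
  have h1 := norm_rd (c i)
  have h2 := norm_rd (c' j)
  have h3 := h i hi j hj
  have h4 : c' j - c i = -(toR (rd (c' j)) - c' j) - (toR w - toR (rd (c' j))) +
      (toR w - toR z) + (toR z - toR (rd (c i))) + (toR (rd (c i)) - c i) := by abel
  rw [h4] at h3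
  have k1 := norm_add_le (-(toR (rd (c' j)) - c' j) - (toR w - toR (rd (c' j))) +
      (toR w - toR z) + (toR z - toR (rd (c i)))) (toR (rd (c i)) - c i)
  have k2 := norm_add_le (-(toR (rd (c' j)) - c' j) - (toR w - toR (rd (c' j))) +
      (toR w - toR z)) (toR z - toR (rd (c i)))
  have k3 := norm_add_le (-(toR (rd (c' j)) - c' j) - (toR w - toR (rd (c' j)))) (toR w - toR z)
  have k4 := norm_sub_le (-(toR (rd (c' j)) - c' j)) (toR w - toR (rd (c' j)))
  rw [norm_neg] at k4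
  linarith

/-! ### The two curves in polar coordinates -/

/-- The angle of the coarse curve at radius `λ m`. -/
private noncomputable def gt (tb tb' l : ℝ) : ℝ := tb + (tb' - tb) * gc ((l - 6) / 8)

private lemma gt_low {tb tb' l : ℝ} (h : l ≤ 6) : gt tb tb' l = tb := by
  unfold gt
  rw [gc_of_nonpos (by linarith)]
  ring

private lemma gt_high {tb tb' l : ℝ} (h : 14 ≤ l) : gt tb tb' l = tb' := by
  unfold gt
  rw [gc_of_one_le (by linarith)]
  ring

private lemma gt_lip {tb tb' : ℝ} (h : |tb' - tb| ≤ 4) (l l' : ℝ) :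
    |gt tb tb' l - gt tb tb' l'| ≤ |l - l'| / 2 := by
  have e : gt tb tb' l - gt tb tb' l' = (tb' - tb) * (gc ((l - 6) / 8) - gc ((l' - 6) / 8)) := by
    unfold gt; ring
  rw [e, abs_mul]
  have h1 := gc_lip ((l - 6) / 8) ((l' - 6) / 8)
  have h2 : (l - 6) / 8 - (l' - 6) / 8 = (l - l') / 8 := by ring
  rw [h2, abs_div, abs_of_pos (show (0 : ℝ) < 8 by norm_num)] at h1
  have h3 := abs_nonneg (gc ((l - 6) / 8) - gc ((l' - 6) / 8))
  calc |tb' - tb| * |gc ((l - 6) / 8) - gc ((l' - 6) / 8)|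
      ≤ 4 * (|l - l'| / 8) := mul_le_mul h h1 h3 (by norm_num)
    _ = |l - l'| / 2 := by ring

/-- Radius of the fine curve. -/
private noncomputable def gl (u : ℝ) : ℝ := 4 + gc u + 10 * gc (u - 2) + gc (u - 4)

/-- Angle of the fine curve. -/
private noncomputable def ga (tb tb' ta ta' u : ℝ) : ℝ :=
  ta + (tb + 4 - ta) * gc (u - 1) + (gt tb tb' (gl u) - tb) + (ta' - (tb' + 4)) * gc (u - 3)

private lemma gl_bounds (u : ℝ) : 4 ≤ gl u ∧ gl u ≤ 16 := by
  unfold gl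
  have h1 := gc_nonneg u
  have h2 := gc_nonneg (u - 2)
  have h3 := gc_nonneg (u - 4)
  have h4 := gc_le_one u
  have h5 := gc_le_one (u - 2)
  have h6 := gc_le_one (u - 4)
  constructor <;> linarith

private lemma gl_lip (u v : ℝ) : |gl u - gl v| ≤ 12 * |u - v| := by
  have h1 := gc_lip u v
  have h2 := gc_lip (u - 2) (v - 2)
  have h3 := gc_lip (u - 4) (v - 4)
  have e2 : u - 2 - (v - 2) = u - v := by ring
  have e3 : u - 4 - (v - 4) = u - v := by ring
  rw [e2] at h2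
  rw [e3] at h3
  unfold gl
  rw [abs_le] at h1 h2 h3 ⊢
  constructor <;> linarith [h1.1, h1.2, h2.1, h2.2, h3.1, h3.2]

private lemma gl_low {u : ℝ} (h : u ≤ 2) : gl u ≤ 5 := by
  unfold gl
  rw [gc_of_nonpos (show u - 2 ≤ 0 by linarith), gc_of_nonpos (show u - 4 ≤ 0 by linarith)]
  linarith [gc_le_one u]

private lemma gl_high {u : ℝ} (h : 3 ≤ u) : 15 ≤ gl u := by
  unfold gl
  rw [gc_of_one_le (show 1 ≤ u by linarith), gc_of_one_le (show 1 ≤ u - 2 by linarith)]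
  linarith [gc_nonneg (u - 4)]

private lemma gl_lt {u : ℝ} (h : gl u < 5) : u < 1 := by
  by_contra h1
  push Not at h1
  unfold gl at h
  rw [gc_of_one_le h1] at h
  linarith [gc_nonneg (u - 2), gc_nonneg (u - 4)]

private lemma gl_gt {u : ℝ} (h : 15 < gl u) : 4 < u := by
  by_contra h1
  push Not at h1
  unfold gl at h
  rw [gc_of_nonpos (show u - 4 ≤ 0 by linarith)] at h
  linarith [gc_le_one u, gc_le_one (u - 2)]

private lemma ga_low {tb tb' ta ta' u : ℝ} (h : u ≤ 2) :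
    ga tb tb' ta ta' u = ta + (tb + 4 - ta) * gc (u - 1) := by
  unfold ga
  rw [gt_low (by linarith [gl_low h]), gc_of_nonpos (show u - 3 ≤ 0 by linarith)]
  ring

private lemma ga_mid {tb tb' ta ta' u : ℝ} (h : 2 ≤ u) (h' : u ≤ 3) :
    ga tb tb' ta ta' u = gt tb tb' (gl u) + 4 := by
  unfold ga
  rw [gc_of_one_le (show 1 ≤ u - 1 by linarith), gc_of_nonpos (show u - 3 ≤ 0 by linarith)]
  ring

private lemma ga_high {tb tb' ta ta' u : ℝ} (h : 3 ≤ u) :
    ga tb tb' ta ta' u = tb' + 4 + (ta' - (tb' + 4)) * gc (u - 3) := by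
  unfold ga
  rw [gt_high (by linarith [gl_high h]), gc_of_one_le (show 1 ≤ u - 1 by linarith)]
  ring

private lemma ga_lip {tb tb' ta ta' : ℝ} (h : |tb' - tb| ≤ 4) (h1 : |tb + 4 - ta| ≤ 4)
    (h2 : |ta' - (tb' + 4)| ≤ 4) (u v : ℝ) :
    |ga tb tb' ta ta' u - ga tb tb' ta ta' v| ≤ 14 * |u - v| := by
  have e : ga tb tb' ta ta' u - ga tb tb' ta ta' v =
      (tb + 4 - ta) * (gc (u - 1) - gc (v - 1)) + (gt tb tb' (gl u) - gt tb tb' (gl v)) +
        (ta' - (tb' + 4)) * (gc (u - 3) - gc (v - 3)) := by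
    unfold ga; ring
  rw [e]
  have k1 := gc_lip (u - 1) (v - 1)
  have k2 := gc_lip (u - 3) (v - 3)
  have e2 : u - 1 - (v - 1) = u - v := by ring
  have e3 : u - 3 - (v - 3) = u - v := by ring
  rw [e2] at k1
  rw [e3] at k2
  have k3 := (gt_lip h (gl u) (gl v)).trans (div_le_div_of_nonneg_right (gl_lip u v)
    (show (0 : ℝ) ≤ 2 by norm_num))
  have k4 : |(tb + 4 - ta) * (gc (u - 1) - gc (v - 1))| ≤ 4 * |u - v| := by
    rw [abs_mul]
    exact mul_le_mul h1 k1 (abs_nonneg _) (by norm_num)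
  have k5 : |(ta' - (tb' + 4)) * (gc (u - 3) - gc (v - 3))| ≤ 4 * |u - v| := by
    rw [abs_mul]
    exact mul_le_mul h2 k2 (abs_nonneg _) (by norm_num)
  have k6 := abs_add_le ((tb + 4 - ta) * (gc (u - 1) - gc (v - 1)) +
    (gt tb tb' (gl u) - gt tb tb' (gl v))) ((ta' - (tb' + 4)) * (gc (u - 3) - gc (v - 3)))
  have k7 := abs_add_le ((tb + 4 - ta) * (gc (u - 1) - gc (v - 1)))
    (gt tb tb' (gl u) - gt tb tb' (gl v))
  linarith

/-- The function `qq` has period `8`. -/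
private lemma qq_sub_eight (t : ℝ) : qq (t - 8) = qq t := by
  unfold qq
  have h : (t - 8) / 8 = t / 8 - 1 := by ring
  rw [h, Int.floor_sub_one]
  congr 1
  push_cast
  ring

/-- Angles between `ta` and `tb + 4` are far from `tb`. -/
private lemma geo_arc {tb ta θ D : ℝ} (h1 : tb ≤ ta) (h2 : ta < tb + 8)
    (hD : D ≤ ‖qq ta - qq tb‖) (hθ1 : min ta (tb + 4) ≤ θ) (hθ2 : θ ≤ max ta (tb + 4)) :
    D / 2 ≤ ‖qq θ - qq tb‖ := by
  have k1 := (hD.trans (qq_lip ta tb))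
  have k2 : D ≤ |(ta - 8) - tb| := by
    have := qq_lip (ta - 8) tb
    rw [qq_sub_eight] at this
    exact hD.trans this
  rw [abs_of_nonneg (by linarith)] at k1
  rw [abs_of_nonpos (by linarith)] at k2
  rcases le_total D 0 with hD0 | hD0
  · exact (by linarith : D / 2 ≤ 0).trans (norm_nonneg _)
  have hD4 : D ≤ 4 := by linarith
  have k3 : D ≤ θ - tb := by
    rcases le_total ta (tb + 4) with h | h
    · rw [min_eq_left h] at hθ1; linarith
    · rw [min_eq_right h] at hθ1; linarith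
  have k4 : θ - tb ≤ 8 - D := by
    rcases le_total ta (tb + 4) with h | h
    · rw [max_eq_right h] at hθ2; linarith
    · rw [max_eq_left h] at hθ2; linarith
  refine qq_far hD0 ?_ ?_
  · rw [abs_of_nonneg (by linarith)]; exact k3
  · rw [abs_of_nonneg (by linarith)]; exact k4

private lemma geo_between (a b : ℝ) {c : ℝ} (h0 : 0 ≤ c) (h1 : c ≤ 1) :
    min a b ≤ a + (b - a) * c ∧ a + (b - a) * c ≤ max a b := by
  rcases le_total a b with h | h
  · rw [min_eq_left h, max_eq_right h]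
    constructor <;> nlinarith
  · rw [min_eq_right h, max_eq_left h]
    constructor <;> nlinarith

/-- The two curves are far from each other. -/
private lemma geo_far {m s tb tb' ta ta' u l : ℝ} (hm : 0 < m) (hs : 12 * s ≤ m)
    (hb : |tb' - tb| ≤ 4) (h1 : tb ≤ ta) (h2 : ta < tb + 8) (h3 : tb' ≤ ta') (h4 : ta' < tb' + 8)
    (h5 : 30 * s ≤ 4 * m * ‖qq ta - qq tb‖) (h6 : 30 * s ≤ 16 * m * ‖qq ta' - qq tb'‖)
    (hl : 4 ≤ l) :
    6 * s ≤ ‖(m * gl u) • qq (ga tb tb' ta ta' u) - (m * l) • qq (gt tb tb' l)‖ := by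
  set N := ‖(m * gl u) • qq (ga tb tb' ta ta' u) - (m * l) • qq (gt tb tb' l)‖ with hN
  obtain ⟨g1, g2⟩ := gl_bounds u
  have hN0 : 0 ≤ N := norm_nonneg _
  by_contra hcon
  push Not at hcon
  have a1 : m * |gl u - l| ≤ N := by
    have := pol_ge_abs (a := qq (ga tb tb' ta ta' u)) (b := qq (gt tb tb' l))
      (show 0 ≤ m * gl u by positivity) (show 0 ≤ m * l by positivity) (qq_norm _) (qq_norm _)
    rwa [← mul_sub, abs_mul, abs_of_pos hm] at this
  have a2 : m * l * ‖qq (ga tb tb' ta ta' u) - qq (gt tb tb' l)‖ ≤ 2 * N :=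
    pol_ge (show 0 ≤ m * gl u by positivity) (show 0 ≤ m * l by positivity) (qq_norm _) (qq_norm _)
  have a3 : |gl u - l| < 1 / 2 := by
    have : m * |gl u - l| < m * (1 / 2) := by linarith
    exact lt_of_mul_lt_mul_left this hm.le
  rw [abs_lt] at a3
  rcases le_total u 2 with hu | hu
  · have b1 := gl_low hu
    have b2 : gt tb tb' l = tb := gt_low (by linarith)
    rw [ga_low hu, b2] at a2
    obtain ⟨b3, b4⟩ := geo_between ta (tb + 4) (gc_nonneg (u - 1)) (gc_le_one (u - 1))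
    have b5 : 30 * s / (4 * m) ≤ ‖qq ta - qq tb‖ := by
      rw [div_le_iff₀ (by positivity)]
      linarith
    have b6 := geo_arc h1 h2 b5 b3 b4
    have b7 : 15 * s ≤ m * l * ‖qq (ta + (tb + 4 - ta) * gc (u - 1)) - qq tb‖ := by
      calc 15 * s = m * 4 * (30 * s / (4 * m) / 2) := by field_simp; ring
        _ ≤ m * 4 * ‖qq (ta + (tb + 4 - ta) * gc (u - 1)) - qq tb‖ :=
            mul_le_mul_of_nonneg_left b6 (by positivity)
        _ ≤ m * l * ‖qq (ta + (tb + 4 - ta) * gc (u - 1)) - qq tb‖ := by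
            refine mul_le_mul_of_nonneg_right ?_ (norm_nonneg _)
            exact mul_le_mul_of_nonneg_left hl hm.le
    linarith
  rcases le_total u 3 with hu' | hu'
  · rw [ga_mid hu hu'] at a2
    have b1 := gt_lip hb (gl u) l
    have b2 : |gl u - l| < 1 / 2 := abs_lt.2 a3
    have b3 : |gt tb tb' (gl u) - gt tb tb' l| ≤ 1 / 4 := by linarith
    rw [abs_le] at b3
    have b4 : (3 : ℝ) / 2 ≤ ‖qq (gt tb tb' (gl u) + 4) - qq (gt tb tb' l)‖ := by
      refine qq_far (by norm_num) ?_ ?_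
      · rw [abs_of_nonneg (by linarith)]; linarith
      · rw [abs_of_nonneg (by linarith)]; linarith
    have b5 : m * 4 * (3 / 2) ≤ m * l * ‖qq (gt tb tb' (gl u) + 4) - qq (gt tb tb' l)‖ := by
      refine mul_le_mul ?_ b4 (by norm_num) (by positivity)
      exact mul_le_mul_of_nonneg_left hl hm.le
    linarith
  · have b1 := gl_high hu'
    have hl' : (14 : ℝ) ≤ l := by linarith
    have b2 : gt tb tb' l = tb' := gt_high hl'
    rw [ga_high hu', b2] at a2
    obtain ⟨b3, b4⟩ := geo_between (tb' + 4) ta' (gc_nonneg (u - 3)) (gc_le_one (u - 3))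
    have b5 : 30 * s / (16 * m) ≤ ‖qq ta' - qq tb'‖ := by
      rw [div_le_iff₀ (by positivity)]
      linarith
    have b6 := geo_arc h3 h4 b5 ((min_comm ta' (tb' + 4)).le.trans b3)
      (b4.trans (max_comm (tb' + 4) ta').le)
    rcases le_total s 0 with hs0 | hs0
    · linarith
    have b7 : 13 * s ≤ m * l * ‖qq (tb' + 4 + (ta' - (tb' + 4)) * gc (u - 3)) - qq tb'‖ := by
      calc 13 * s ≤ m * 14 * (30 * s / (16 * m) / 2) := by
            have : m * 14 * (30 * s / (16 * m) / 2) = 210 / 16 * s := by field_simp; ring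
            rw [this]
            linarith
        _ ≤ m * 14 * ‖qq (tb' + 4 + (ta' - (tb' + 4)) * gc (u - 3)) - qq tb'‖ :=
            mul_le_mul_of_nonneg_left b6 (by positivity)
        _ ≤ m * l * ‖qq (tb' + 4 + (ta' - (tb' + 4)) * gc (u - 3)) - qq tb'‖ := by
            refine mul_le_mul_of_nonneg_right ?_ (norm_nonneg _)
            exact mul_le_mul_of_nonneg_left hl' hm.le
    linarith

/-- The coarse curve gives a good chain. -/
private lemma geo_coarse {m k : ℕ} (hk : 100 ≤ k) (hm : 100 * k ≤ m) {b b' : Vert} {tb tb' : ℝ}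
    (hb : (4 * (m : ℝ)) • qq tb = toR b) (hb' : (16 * (m : ℝ)) • qq tb' = toR b')
    (hbb : |tb' - tb| ≤ 4) :
    ZGood m (m / k) (fun i => rd (((m : ℝ) * (4 + 12 * ((i : ℝ) / ((108 * k : ℕ) : ℝ)))) •
      qq (gt tb tb' (4 + 12 * ((i : ℝ) / ((108 * k : ℕ) : ℝ)))))) (108 * k) b b' := by
  have hk0 : (0 : ℝ) < k := by exact_mod_cast (show 0 < k by omega)
  have hk' : (100 : ℝ) ≤ k := by exact_mod_cast hk
  have hm' : 100 * (k : ℝ) ≤ m := by exact_mod_cast hm
  have hm0 : (0 : ℝ) < m := by nlinarith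
  have hs1 : ((m / k : ℕ) : ℝ) ≤ m / k := Nat.cast_div_le
  have hs2 : (m : ℝ) / k - 1 ≤ ((m / k : ℕ) : ℝ) := by
    have h1 : m < k * (m / k + 1) := Nat.lt_mul_div_succ m (by omega)
    have h2 : (m : ℝ) < k * (((m / k : ℕ) : ℝ) + 1) := by exact_mod_cast h1
    have h3 : (m : ℝ) / k < ((m / k : ℕ) : ℝ) + 1 := by
      rw [div_lt_iff₀ hk0]; linarith
    linarith
  have hx : 100 ≤ (m : ℝ) / k := by rw [le_div_iff₀ hk0]; exact hm'
  have hx2 : (m : ℝ) / k ≤ m / 100 := by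
    exact div_le_div_of_nonneg_left hm0.le (by norm_num) hk'
  set s := m / k with hs
  set n : ℕ := 108 * k with hn
  have hn0 : (0 : ℝ) < n := by exact_mod_cast (show 0 < n by omega)
  have hs3 : 1 ≤ s := by
    have : (1 : ℝ) ≤ s := by linarith
    exact_mod_cast this
  have hu : ∀ i ≤ n, 0 ≤ (i : ℝ) / n ∧ (i : ℝ) / n ≤ 1 := by
    intro i hi
    refine ⟨by positivity, ?_⟩
    rw [div_le_one hn0]
    exact_mod_cast hi
  have hnorm : ∀ i ≤ n, ‖((m : ℝ) * (4 + 12 * ((i : ℝ) / n))) •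
      qq (gt tb tb' (4 + 12 * ((i : ℝ) / n)))‖ = (m : ℝ) * (4 + 12 * ((i : ℝ) / n)) := by
    intro i hi
    have := (hu i hi).1
    exact pol_norm (by positivity) (qq_norm _)
  refine geo_zgood (c := fun i => ((m : ℝ) * (4 + 12 * ((i : ℝ) / n))) •
      qq (gt tb tb' (4 + 12 * ((i : ℝ) / n)))) ?_ ?_ ?_ ?_ ?_ ?_ ?_ hs3 ?_
  · simp only [Nat.cast_zero, zero_div, mul_zero, add_zero]
    rw [gt_low (by norm_num), ← hb, mul_comm]
  · rw [div_self hn0.ne', gt_high (by norm_num), ← hb']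
    congr 1
    ring
  · intro i hi
    obtain ⟨k1, k2⟩ := hu i hi.le
    obtain ⟨k3, k4⟩ := hu (i + 1) hi
    have k5 : ((i + 1 : ℕ) : ℝ) / n - (i : ℝ) / n = 1 / n := by
      push_cast
      field_simp
      ring
    have k6 := pol_le (l := (m : ℝ) * (4 + 12 * (((i + 1 : ℕ) : ℝ) / n)))
      (l' := (m : ℝ) * (4 + 12 * ((i : ℝ) / n)))
      (a := qq (gt tb tb' (4 + 12 * (((i + 1 : ℕ) : ℝ) / n))))
      (b := qq (gt tb tb' (4 + 12 * ((i : ℝ) / n)))) (by positivity) (by positivity)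
      (qq_norm _) (qq_norm _)
    have k7 : |(m : ℝ) * (4 + 12 * (((i + 1 : ℕ) : ℝ) / n)) - (m : ℝ) * (4 + 12 * ((i : ℝ) / n))| =
        12 * m / n := by
      have : (m : ℝ) * (4 + 12 * (((i + 1 : ℕ) : ℝ) / n)) - (m : ℝ) * (4 + 12 * ((i : ℝ) / n)) =
          12 * m * (((i + 1 : ℕ) : ℝ) / n - (i : ℝ) / n) := by ring
      rw [this, k5, abs_of_nonneg (by positivity)]
      ring
    have k8 : ‖qq (gt tb tb' (4 + 12 * (((i + 1 : ℕ) : ℝ) / n))) -
        qq (gt tb tb' (4 + 12 * ((i : ℝ) / n)))‖ ≤ 6 / n := by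
      refine (qq_lip _ _).trans ((gt_lip hbb _ _).trans (le_of_eq ?_))
      have : 4 + 12 * (((i + 1 : ℕ) : ℝ) / n) - (4 + 12 * ((i : ℝ) / n)) =
          12 * (((i + 1 : ℕ) : ℝ) / n - (i : ℝ) / n) := by ring
      rw [this, k5, abs_of_nonneg (by positivity)]
      ring
    have k9 : (m : ℝ) * (4 + 12 * (((i + 1 : ℕ) : ℝ) / n)) *
        ‖qq (gt tb tb' (4 + 12 * (((i + 1 : ℕ) : ℝ) / n))) -
          qq (gt tb tb' (4 + 12 * ((i : ℝ) / n)))‖ ≤ (m * 16) * (6 / n) := by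
      refine mul_le_mul ?_ k8 (norm_nonneg _) (by positivity)
      refine mul_le_mul_of_nonneg_left (by linarith) hm0.le
    have k10 : 12 * (m : ℝ) / n + (m * 16) * (6 / n) = m / k := by
      rw [hn]
      push_cast
      field_simp
      ring
    linarith
  · intro i hi
    rw [hnorm i hi]
    have := (hu i hi).1
    nlinarith
  · intro i hi
    rw [hnorm i hi]
    have := (hu i hi).2
    nlinarith
  · intro i hi h
    beta_reduce at h ⊢
    rw [hnorm i hi] at h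
    obtain ⟨k1, k2⟩ := hu i hi
    have k3 : (m : ℝ) * (12 * ((i : ℝ) / n)) ≤ 8 * s + 1 := by linarith
    have k4 : 12 * ((i : ℝ) / n) ≤ 2 := by
      have : (m : ℝ) * (12 * ((i : ℝ) / n)) ≤ m * 2 := by linarith
      exact le_of_mul_le_mul_left this hm0
    rw [gt_low (by linarith), ← hb, ← sub_smul, norm_smul, qq_norm, mul_one, Real.norm_eq_abs,
      abs_of_nonneg (by nlinarith)]
    linarith
  · intro i hi h
    beta_reduce at h ⊢
    rw [hnorm i hi] at h
    obtain ⟨k1, k2⟩ := hu i hi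
    have k3 : (m : ℝ) * (12 * (1 - (i : ℝ) / n)) ≤ 8 * s + 1 := by linarith
    have k4 : 12 * (1 - (i : ℝ) / n) ≤ 2 := by
      have : (m : ℝ) * (12 * (1 - (i : ℝ) / n)) ≤ m * 2 := by linarith
      exact le_of_mul_le_mul_left this hm0
    rw [gt_high (by linarith), ← hb', ← sub_smul, norm_smul, qq_norm, mul_one, Real.norm_eq_abs,
      abs_of_nonpos (by nlinarith)]
    linarith
  · have : 3 * (s : ℝ) + 1 ≤ m := by linarith
    exact_mod_cast this

/-- The fine curve gives a good chain. -/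
private lemma geo_fine {m k : ℕ} (hk : 100 ≤ k) (hm : 100 * k ≤ m) {b b' : Vert}
    {tb tb' ta ta' : ℝ} (ha : (4 * (m : ℝ)) • qq ta = toR b) (ha' : (16 * (m : ℝ)) • qq ta' = toR b')
    (hbb : |tb' - tb| ≤ 4) (h1 : |tb + 4 - ta| ≤ 4) (h2 : |ta' - (tb' + 4)| ≤ 4) :
    ZGood m (m / k) (fun i => rd (((m : ℝ) * gl ((i : ℝ) / ((236 * k : ℕ) : ℝ))) •
      qq (ga tb tb' ta ta' ((i : ℝ) / ((236 * k : ℕ) : ℝ))))) (5 * (236 * k)) b b' := by
  have hk0 : (0 : ℝ) < k := by exact_mod_cast (show 0 < k by omega)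
  have hk' : (100 : ℝ) ≤ k := by exact_mod_cast hk
  have hm' : 100 * (k : ℝ) ≤ m := by exact_mod_cast hm
  have hm0 : (0 : ℝ) < m := by nlinarith
  have hs1 : ((m / k : ℕ) : ℝ) ≤ m / k := Nat.cast_div_le
  have hs2 : (m : ℝ) / k - 1 ≤ ((m / k : ℕ) : ℝ) := by
    have h1 : m < k * (m / k + 1) := Nat.lt_mul_div_succ m (by omega)
    have h2 : (m : ℝ) < k * (((m / k : ℕ) : ℝ) + 1) := by exact_mod_cast h1
    have h3 : (m : ℝ) / k < ((m / k : ℕ) : ℝ) + 1 := by
      rw [div_lt_iff₀ hk0]; linarith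
    linarith
  have hx : 100 ≤ (m : ℝ) / k := by rw [le_div_iff₀ hk0]; exact hm'
  have hx2 : (m : ℝ) / k ≤ m / 100 := by
    exact div_le_div_of_nonneg_left hm0.le (by norm_num) hk'
  set s := m / k with hs
  set M : ℕ := 236 * k with hM
  have hM0 : (0 : ℝ) < M := by exact_mod_cast (show 0 < M by omega)
  have hs3 : 1 ≤ s := by
    have : (1 : ℝ) ≤ s := by linarith
    exact_mod_cast this
  have hnorm : ∀ u : ℝ, ‖((m : ℝ) * gl u) • qq (ga tb tb' ta ta' u)‖ = (m : ℝ) * gl u := by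
    intro u
    have := (gl_bounds u).1
    exact pol_norm (by positivity) (qq_norm _)
  refine geo_zgood (c := fun i => ((m : ℝ) * gl ((i : ℝ) / M)) •
      qq (ga tb tb' ta ta' ((i : ℝ) / M))) ?_ ?_ ?_ ?_ ?_ ?_ ?_ hs3 ?_
  · simp only [Nat.cast_zero, zero_div]
    rw [ga_low (by norm_num), ← ha, gc_of_nonpos (by norm_num), mul_zero, add_zero]
    unfold gl
    rw [gc_of_nonpos le_rfl, gc_of_nonpos (by norm_num), gc_of_nonpos (by norm_num)]
    congr 1
    ring
  · have e : ((5 * M : ℕ) : ℝ) / M = 5 := by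
      push_cast
      field_simp
    rw [e, ga_high (by norm_num), ← ha', gc_of_one_le (by norm_num)]
    unfold gl
    rw [gc_of_one_le (by norm_num), gc_of_one_le (by norm_num), gc_of_one_le (by norm_num)]
    congr 1
    · ring
    · congr 1
      ring
  · intro i hi
    have k5 : ((i + 1 : ℕ) : ℝ) / M - (i : ℝ) / M = 1 / M := by
      push_cast
      field_simp
      ring
    obtain ⟨g1, g2⟩ := gl_bounds (((i + 1 : ℕ) : ℝ) / M)
    obtain ⟨g3, g4⟩ := gl_bounds ((i : ℝ) / M)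
    have k6 := pol_le (l := (m : ℝ) * gl (((i + 1 : ℕ) : ℝ) / M))
      (l' := (m : ℝ) * gl ((i : ℝ) / M))
      (a := qq (ga tb tb' ta ta' (((i + 1 : ℕ) : ℝ) / M)))
      (b := qq (ga tb tb' ta ta' ((i : ℝ) / M))) (by positivity) (by positivity)
      (qq_norm _) (qq_norm _)
    have k7 : |(m : ℝ) * gl (((i + 1 : ℕ) : ℝ) / M) - (m : ℝ) * gl ((i : ℝ) / M)| ≤
        12 * m / M := by
      rw [← mul_sub, abs_mul, abs_of_pos hm0]
      have := gl_lip (((i + 1 : ℕ) : ℝ) / M) ((i : ℝ) / M)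
      rw [k5, abs_of_nonneg (show (0 : ℝ) ≤ 1 / M by positivity)] at this
      calc (m : ℝ) * |gl (((i + 1 : ℕ) : ℝ) / M) - gl ((i : ℝ) / M)| ≤ m * (12 * (1 / M)) :=
            mul_le_mul_of_nonneg_left this hm0.le
        _ = 12 * m / M := by ring
    have k8 : ‖qq (ga tb tb' ta ta' (((i + 1 : ℕ) : ℝ) / M)) -
        qq (ga tb tb' ta ta' ((i : ℝ) / M))‖ ≤ 14 / M := by
      refine (qq_lip _ _).trans ((ga_lip hbb h1 h2 _ _).trans (le_of_eq ?_))
      rw [k5, abs_of_nonneg (by positivity)]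
      ring
    have k9 : (m : ℝ) * gl (((i + 1 : ℕ) : ℝ) / M) *
        ‖qq (ga tb tb' ta ta' (((i + 1 : ℕ) : ℝ) / M)) -
          qq (ga tb tb' ta ta' ((i : ℝ) / M))‖ ≤ (m * 16) * (14 / M) := by
      refine mul_le_mul ?_ k8 (norm_nonneg _) (by positivity)
      refine mul_le_mul_of_nonneg_left (by linarith) hm0.le
    have k10 : 12 * (m : ℝ) / M + (m * 16) * (14 / M) = m / k := by
      rw [hM]
      push_cast
      field_simp
      ring
    linarith
  · intro i _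
    rw [hnorm]
    have := (gl_bounds ((i : ℝ) / M)).1
    nlinarith
  · intro i _
    rw [hnorm]
    have := (gl_bounds ((i : ℝ) / M)).2
    nlinarith
  · intro i _ h
    beta_reduce at h ⊢
    rw [hnorm] at h
    obtain ⟨g1, g2⟩ := gl_bounds ((i : ℝ) / M)
    have k4 : gl ((i : ℝ) / M) < 5 := by
      have : (m : ℝ) * gl ((i : ℝ) / M) < m * 5 := by linarith
      exact lt_of_mul_lt_mul_left this hm0.le
    have k5 := gl_lt k4
    rw [ga_low (by linarith), gc_of_nonpos (show (i : ℝ) / M - 1 ≤ 0 by linarith), mul_zero,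
      add_zero, ← ha, ← sub_smul, norm_smul, qq_norm, mul_one, Real.norm_eq_abs,
      abs_of_nonneg (by nlinarith)]
    linarith
  · intro i _ h
    beta_reduce at h ⊢
    rw [hnorm] at h
    obtain ⟨g1, g2⟩ := gl_bounds ((i : ℝ) / M)
    have k4 : 15 < gl ((i : ℝ) / M) := by
      have : (m : ℝ) * 15 < m * gl ((i : ℝ) / M) := by linarith
      exact lt_of_mul_lt_mul_left this hm0.le
    have k5 := gl_gt k4
    have k6 : ga tb tb' ta ta' ((i : ℝ) / M) = ta' := by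
      rw [ga_high (by linarith), gc_of_one_le (by linarith)]
      ring
    rw [k6, ← ha', ← sub_smul, norm_smul, qq_norm, mul_one, Real.norm_eq_abs,
      abs_of_nonpos (by nlinarith)]
    linarith
  · have : 3 * (s : ℝ) + 1 ≤ m := by linarith
    exact_mod_cast this

theorem geo : Geo := by
  refine ⟨100, by norm_num, fun k hk => ⟨108 * k, 100 * k, fun k' hk' =>
    ⟨5 * (236 * k'), 100 * k', fun m hm b hb b' hb' => ?_⟩⟩⟩
  have hkm : 100 * k ≤ m := by nlinarith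
  have hk1 : 100 ≤ k' := by nlinarith
  have hk0 : (0 : ℝ) < k := by exact_mod_cast (show 0 < k by omega)
  have hkR : (100 : ℝ) ≤ k := by exact_mod_cast hk
  have hk'0 : (0 : ℝ) < k' := by exact_mod_cast (show 0 < k' by omega)
  have hk'R : 100 * (k : ℝ) ≤ k' := by exact_mod_cast hk'
  have hmR : 100 * (k' : ℝ) ≤ m := by exact_mod_cast hm
  have hm0 : (0 : ℝ) < m := by nlinarith
  rw [mem_sphere_iff_norm] at hb hb'
  push_cast at hb hb'
  obtain ⟨tb, -, -, htb⟩ := qq_surj (toR b) (show (0 : ℝ) < 4 * m by positivity) hb 0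
  obtain ⟨tb', htb1, htb2, htb'⟩ := qq_surj (toR b') (show (0 : ℝ) < 16 * m by positivity) hb'
    (tb - 4)
  have hbb : |tb' - tb| ≤ 4 := by rw [abs_le]; constructor <;> linarith
  refine ⟨_, geo_coarse hk hkm htb htb' hbb, ?_⟩
  intro β hβ hβb β' hβ' hβb'
  rw [mem_sphere_iff_norm] at hβ hβ'
  rw [mem_ball_iff_norm, not_le] at hβb hβb'
  push_cast at hβ hβ' hβb hβb'
  obtain ⟨ta, hta1, hta2, hta⟩ := qq_surj (toR β) (show (0 : ℝ) < 4 * m by positivity) hβ tb
  obtain ⟨ta', hta1', hta2', hta'⟩ := qq_surj (toR β') (show (0 : ℝ) < 16 * m by positivity) hβ'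
    tb'
  refine ⟨_, geo_fine (tb := tb) (tb' := tb') hk1 hm hta hta' hbb ?_ ?_, ?_⟩
  · rw [abs_le]; constructor <;> linarith
  · rw [abs_le]; constructor <;> linarith
  have hs1 : ((m / k : ℕ) : ℝ) ≤ m / k := Nat.cast_div_le
  have hs2 : (m : ℝ) / k - 1 ≤ ((m / k : ℕ) : ℝ) := by
    have h1 : m < k * (m / k + 1) := Nat.lt_mul_div_succ m (by omega)
    have h2 : (m : ℝ) < k * (((m / k : ℕ) : ℝ) + 1) := by exact_mod_cast h1
    have h3 : (m : ℝ) / k < ((m / k : ℕ) : ℝ) + 1 := by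
      rw [div_lt_iff₀ hk0]; linarith
    linarith
  have hs3 : ((m / k' : ℕ) : ℝ) ≤ m / k' := Nat.cast_div_le
  have hs4 : (m : ℝ) / k' ≤ m / k / 100 := by
    rw [div_div]
    refine div_le_div_of_nonneg_left hm0.le (by positivity) (by linarith)
  have hx : 100 ≤ (m : ℝ) / k := by
    rw [le_div_iff₀ hk0]; nlinarith
  have hx2 : (m : ℝ) / k ≤ m / 100 := div_le_div_of_nonneg_left hm0.le (by norm_num) hkR
  refine geo_sep ?_ (by linarith)
  intro i hi j hj
  refine geo_far hm0 (by linarith) hbb hta1 hta2 hta1' hta2' ?_ ?_ ?_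
  · rw [← hta, ← htb, ← smul_sub, norm_smul, Real.norm_eq_abs,
      abs_of_pos (show (0 : ℝ) < 4 * m by positivity)] at hβb
    exact hβb.le
  · rw [← hta', ← htb', ← smul_sub, norm_smul, Real.norm_eq_abs,
      abs_of_pos (show (0 : ℝ) < 16 * m by positivity)] at hβb'
    exact hβb'.le
  · have : (0 : ℝ) ≤ (i : ℝ) / ((108 * k : ℕ) : ℝ) := by positivity
    linarith

end Pool.Agent.H57.EX
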