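import Mathlib

/-!
# The boundary of the unit square of the sup norm, parametrised by arc length
-/

namespace Pool.Agent.H57.EX

/-- The boundary of the unit square by arc length, on `[0, 8)`. -/
noncomputable def qz (τ : ℝ) : ℝ × ℝ :=
  if τ ≤ 1 then (1, τ) else if τ ≤ 3 then (2 - τ, 1) else if τ ≤ 5 then (-1, 4 - τ)
  else if τ ≤ 7 then (τ - 6, -1) else (1, τ - 8)

/-- The boundary of the unit square by arc length, with period `8`. -/
noncomputable def qq (t : ℝ) : ℝ × ℝ := qz (t - 8 * ⌊t / 8⌋)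

private lemma qz_cases {τ : ℝ} (_h0 : 0 ≤ τ) (_h1 : τ < 8) :
    ((qz τ).1 = 1 ∧ (qz τ).2 = τ ∧ τ ≤ 1) ∨
    ((qz τ).1 = 2 - τ ∧ (qz τ).2 = 1 ∧ 1 ≤ τ ∧ τ ≤ 3) ∨
    ((qz τ).1 = -1 ∧ (qz τ).2 = 4 - τ ∧ 3 ≤ τ ∧ τ ≤ 5) ∨
    ((qz τ).1 = τ - 6 ∧ (qz τ).2 = -1 ∧ 5 ≤ τ ∧ τ ≤ 7) ∨
    ((qz τ).1 = 1 ∧ (qz τ).2 = τ - 8 ∧ 7 ≤ τ) := by
  unfold qz
  split_ifs with h2 h3 h4 h5
  · exact Or.inl ⟨rfl, rfl, h2⟩
  · exact Or.inr (Or.inl ⟨rfl, rfl, (not_le.1 h2).le, h3⟩)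
  · exact Or.inr (Or.inr (Or.inl ⟨rfl, rfl, (not_le.1 h3).le, h4⟩))
  · exact Or.inr (Or.inr (Or.inr (Or.inl ⟨rfl, rfl, (not_le.1 h4).le, h5⟩)))
  · exact Or.inr (Or.inr (Or.inr (Or.inr ⟨rfl, rfl, (not_le.1 h5).le⟩)))

private lemma qq_fract (t : ℝ) : 0 ≤ t - 8 * ⌊t / 8⌋ ∧ t - 8 * ⌊t / 8⌋ < 8 := by
  have h1 := Int.floor_le (t / 8)
  have h2 := Int.lt_floor_add_one (t / 8)
  constructor <;> linarith

private lemma qq_add_mul (t : ℝ) (i : ℤ) : qq (t + 8 * i) = qq t := by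
  unfold qq
  have h : (t + 8 * i) / 8 = t / 8 + i := by ring
  rw [h, Int.floor_add_intCast]
  congr 1
  push_cast
  ring

private lemma qq_of_mem {τ : ℝ} (h0 : 0 ≤ τ) (h1 : τ < 8) : qq τ = qz τ := by
  unfold qq
  have h : ⌊τ / 8⌋ = 0 := by
    rw [Int.floor_eq_zero_iff]
    constructor <;> linarith
  rw [h]
  simp

private lemma qq_reduce (t : ℝ) : ∃ (i : ℤ) (τ : ℝ), 0 ≤ τ ∧ τ < 8 ∧ t = τ + 8 * i ∧ qq t = qz τ := by
  obtain ⟨h1, h2⟩ := qq_fract t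
  exact ⟨⌊t / 8⌋, t - 8 * ⌊t / 8⌋, h1, h2, by ring, rfl⟩

private lemma norm_le_iff2 {v : ℝ × ℝ} {r : ℝ} : ‖v‖ ≤ r ↔ |v.1| ≤ r ∧ |v.2| ≤ r := by
  rw [Prod.norm_def, max_le_iff, Real.norm_eq_abs, Real.norm_eq_abs]

private lemma le_norm_iff2 {v : ℝ × ℝ} {r : ℝ} : r ≤ ‖v‖ ↔ r ≤ |v.1| ∨ r ≤ |v.2| := by
  rw [Prod.norm_def, le_max_iff, Real.norm_eq_abs, Real.norm_eq_abs]

theorem qq_norm (t : ℝ) : ‖qq t‖ = 1 := by
  obtain ⟨i, τ, h0, h1, -, h2⟩ := qq_reduce t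
  rw [h2]
  refine le_antisymm (norm_le_iff2.2 ?_) (le_norm_iff2.2 ?_)
  · rcases qz_cases h0 h1 with ⟨a, b, c⟩ | ⟨a, b, c, d⟩ | ⟨a, b, c, d⟩ | ⟨a, b, c, d⟩ | ⟨a, b, c⟩ <;>
    · rw [a, b, abs_le, abs_le]
      refine ⟨⟨?_, ?_⟩, ?_, ?_⟩ <;> linarith
  · rcases qz_cases h0 h1 with ⟨a, b, c⟩ | ⟨a, b, c, d⟩ | ⟨a, b, c, d⟩ | ⟨a, b, c, d⟩ | ⟨a, b, c⟩
    · left; rw [a]; norm_num
    · right; rw [b]; norm_num
    · left; rw [a]; norm_num
    · right; rw [b]; norm_num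
    · left; rw [a]; norm_num

/-- Lipschitz bound for small differences, reduced to one period. -/
private lemma qq_lip_aux {t d : ℝ} (h0 : 0 ≤ t) (h1 : t < 8) (hd0 : 0 ≤ d) (hd : d < 2) :
    ‖qq t - qq (t + d)‖ ≤ d := by
  rw [norm_le_iff2]
  simp only [Prod.fst_sub, Prod.snd_sub]
  rcases lt_or_ge (t + d) 8 with h2 | h2
  · rw [qq_of_mem h0 h1, qq_of_mem (by linarith) h2]
    rcases qz_cases h0 h1 with ⟨a, b, c⟩ | ⟨a, b, c, e⟩ | ⟨a, b, c, e⟩ | ⟨a, b, c, e⟩ | ⟨a, b, c⟩ <;>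
    rcases qz_cases (show 0 ≤ t + d by linarith) h2 with ⟨a', b', c'⟩ | ⟨a', b', c', e'⟩ |
      ⟨a', b', c', e'⟩ | ⟨a', b', c', e'⟩ | ⟨a', b', c'⟩ <;>
    · rw [a, b, a', b', abs_le, abs_le]
      refine ⟨⟨?_, ?_⟩, ?_, ?_⟩ <;> linarith
  · have e1 : qq (t + d) = qq (t + d - 8) := by
      have := qq_add_mul (t + d - 8) 1
      rw [← this]
      congr 1
      push_cast
      ring
    rw [e1, qq_of_mem h0 h1, qq_of_mem (show 0 ≤ t + d - 8 by linarith) (by linarith)]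
    rcases qz_cases h0 h1 with ⟨a, b, c⟩ | ⟨a, b, c, e⟩ | ⟨a, b, c, e⟩ | ⟨a, b, c, e⟩ | ⟨a, b, c⟩ <;>
    rcases qz_cases (show 0 ≤ t + d - 8 by linarith) (by linarith) with ⟨a', b', c'⟩ |
      ⟨a', b', c', e'⟩ | ⟨a', b', c', e'⟩ | ⟨a', b', c', e'⟩ | ⟨a', b', c'⟩ <;>
    · rw [a, b, a', b', abs_le, abs_le]
      refine ⟨⟨?_, ?_⟩, ?_, ?_⟩ <;> linarith

private lemma qq_lip_le {t t' : ℝ} (h : t ≤ t') : ‖qq t - qq t'‖ ≤ t' - t := by
  rcases lt_or_ge (t' - t) 2 with h2 | h2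
  · obtain ⟨i, τ, k0, k1, k2, -⟩ := qq_reduce t
    have e1 : qq t = qq τ := by rw [k2, qq_add_mul]
    have e2 : qq t' = qq (τ + (t' - t)) := by
      have : t' = (τ + (t' - t)) + 8 * i := by rw [k2]; ring
      conv_lhs => rw [this]
      exact qq_add_mul _ _
    rw [e1, e2]
    exact qq_lip_aux k0 k1 (by linarith) h2
  · have h3 := norm_sub_le (qq t) (qq t')
    rw [qq_norm, qq_norm] at h3
    linarith

theorem qq_lip (t t' : ℝ) : ‖qq t - qq t'‖ ≤ |t - t'| := by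
  rcases le_total t t' with h | h
  · rw [abs_of_nonpos (by linarith)]
    have := qq_lip_le h
    linarith
  · rw [abs_of_nonneg (by linarith), norm_sub_rev]
    exact qq_lip_le h

private lemma qz_far {τ τ' δ : ℝ} (h0 : 0 ≤ τ) (h1 : τ < 8) (h0' : 0 ≤ τ') (h1' : τ' < 8)
    (k0 : δ ≤ τ' - τ) (k1 : τ' - τ ≤ 8 - δ) : δ / 2 ≤ ‖qz τ - qz τ'‖ := by
  by_contra hcon
  rw [le_norm_iff2, not_or] at hcon
  obtain ⟨h2, h3⟩ := hcon
  rw [not_le, abs_lt] at h2 h3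
  simp only [Prod.fst_sub, Prod.snd_sub] at h2 h3
  rcases qz_cases h0 h1 with ⟨a, b, c⟩ | ⟨a, b, c, e⟩ | ⟨a, b, c, e⟩ | ⟨a, b, c, e⟩ | ⟨a, b, c⟩ <;>
  rcases qz_cases h0' h1' with ⟨a', b', c'⟩ | ⟨a', b', c', e'⟩ |
    ⟨a', b', c', e'⟩ | ⟨a', b', c', e'⟩ | ⟨a', b', c'⟩ <;>
  · rw [a, a'] at h2
    rw [b, b'] at h3
    linarith [h2.1, h2.2, h3.1, h3.2]

private lemma qq_far_le {t t' δ : ℝ} (h0 : 0 ≤ δ) (h1 : δ ≤ t' - t) (h2 : t' - t ≤ 8 - δ) :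
    δ / 2 ≤ ‖qq t - qq t'‖ := by
  obtain ⟨i, τ, k0, k1, k2, -⟩ := qq_reduce t
  have e1 : qq t = qq τ := by rw [k2, qq_add_mul]
  have e2 : qq t' = qq (τ + (t' - t)) := by
    have : t' = (τ + (t' - t)) + 8 * i := by rw [k2]; ring
    conv_lhs => rw [this]
    exact qq_add_mul _ _
  rw [e1, e2]
  set d := t' - t with hd
  rcases lt_or_ge (τ + d) 8 with h3 | h3
  · rw [qq_of_mem k0 k1, qq_of_mem (by linarith) h3]
    exact qz_far k0 k1 (by linarith) h3 (by linarith) (by linarith)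
  · have e3 : qq (τ + d) = qq (τ + d - 8) := by
      have := qq_add_mul (τ + d - 8) 1
      rw [← this]
      congr 1
      push_cast
      ring
    rw [e3, qq_of_mem k0 k1, qq_of_mem (show 0 ≤ τ + d - 8 by linarith) (by linarith),
      norm_sub_rev]
    exact qz_far (by linarith) (by linarith) k0 k1 (by linarith) (by linarith)

theorem qq_far {t t' δ : ℝ} (h0 : 0 ≤ δ) (h1 : δ ≤ |t - t'|) (h2 : |t - t'| ≤ 8 - δ) :
    δ / 2 ≤ ‖qq t - qq t'‖ := by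
  rcases le_total t t' with h | h
  · rw [abs_of_nonpos (by linarith)] at h1 h2
    exact qq_far_le h0 (by linarith) (by linarith)
  · rw [abs_of_nonneg (by linarith)] at h1 h2
    rw [norm_sub_rev]
    exact qq_far_le h0 (by linarith) (by linarith)

private lemma qz_surj (v : ℝ × ℝ) (hv : ‖v‖ = 1) : ∃ τ, 0 ≤ τ ∧ τ < 8 ∧ qz τ = v := by
  obtain ⟨x, y⟩ := v
  have h1 := norm_le_iff2.1 hv.le
  have h2 := le_norm_iff2.1 hv.ge
  simp only [abs_le] at h1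
  simp only at h2
  have key : x = 1 ∨ x = -1 ∨ y = 1 ∨ y = -1 := by
    rcases h2 with h2 | h2
    · rcases le_abs.1 h2 with h | h
      · left; linarith [h1.1.2]
      · right; left; linarith [h1.1.1]
    · rcases le_abs.1 h2 with h | h
      · right; right; left; linarith [h1.2.2]
      · right; right; right; linarith [h1.2.1]
  rcases key with h | h | h | h
  · subst h
    rcases le_or_gt 0 y with hy | hy
    · exact ⟨y, hy, by linarith [h1.2.2], by unfold qz; rw [if_pos h1.2.2]⟩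
    · rcases eq_or_lt_of_le h1.2.1 with hy1 | hy1
      · refine ⟨7, by norm_num, by norm_num, ?_⟩
        rw [← hy1]
        unfold qz
        norm_num
      · refine ⟨y + 8, by linarith, by linarith, ?_⟩
        unfold qz
        rw [if_neg (by linarith), if_neg (by linarith), if_neg (by linarith), if_neg (by linarith)]
        simp
  · subst h
    rcases eq_or_lt_of_le h1.2.2 with hy1 | hy1
    · refine ⟨3, by norm_num, by norm_num, ?_⟩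
      rw [hy1]
      unfold qz
      norm_num
    · refine ⟨4 - y, by linarith, by linarith [h1.2.1], ?_⟩
      unfold qz
      rw [if_neg (by linarith), if_neg (by linarith), if_pos (by linarith [h1.2.1])]
      simp
  · subst h
    rcases eq_or_lt_of_le h1.1.2 with hx1 | hx1
    · refine ⟨1, by norm_num, by norm_num, ?_⟩
      rw [hx1]
      unfold qz
      norm_num
    · refine ⟨2 - x, by linarith, by linarith [h1.1.1], ?_⟩
      unfold qz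
      rw [if_neg (by linarith), if_pos (by linarith [h1.1.1])]
      simp
  · subst h
    rcases eq_or_lt_of_le h1.1.1 with hx1 | hx1
    · refine ⟨5, by norm_num, by norm_num, ?_⟩
      rw [← hx1]
      unfold qz
      norm_num
    · refine ⟨x + 6, by linarith, by linarith [h1.1.2], ?_⟩
      unfold qz
      rw [if_neg (by linarith), if_neg (by linarith), if_neg (by linarith),
        if_pos (by linarith [h1.1.2])]
      simp

theorem qq_surj (v : ℝ × ℝ) {R : ℝ} (hR : 0 < R) (hv : ‖v‖ = R) (a : ℝ) :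
    ∃ t, a ≤ t ∧ t < a + 8 ∧ R • qq t = v := by
  have h1 : ‖R⁻¹ • v‖ = 1 := by
    rw [norm_smul, hv, Real.norm_eq_abs, abs_of_pos (inv_pos.2 hR), inv_mul_cancel₀ hR.ne']
  obtain ⟨τ, h2, h3, h4⟩ := qz_surj _ h1
  -- shift to the interval `[a, a + 8)`
  set i : ℤ := ⌈(a - τ) / 8⌉ with hi
  have k1 := Int.le_ceil ((a - τ) / 8)
  have k2 := Int.ceil_lt_add_one ((a - τ) / 8)
  refine ⟨τ + 8 * i, by rw [hi]; linarith, by rw [hi]; linarith, ?_⟩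
  rw [qq_add_mul, qq_of_mem h2 h3, h4, smul_smul, mul_inv_cancel₀ hR.ne', one_smul]

end Pool.Agent.H57.EX
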