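import Pool.Agent.H57.EX.Walk

/-!
# The standard data: deterministic facts
-/

open MeasureTheory ProbabilityTheory unitInterval

namespace Pool.Agent.H57.EX

open Pool.Agent.H89.Perc Pool.Agent.H61.NC Pool.Agent.H29.Sep

variable {m R : ℕ} {L T : Set Vert} {hm : 10 ≤ m} {hR : 64 * m ≤ R} {hL : L ⊆ sphere 0 R}
  {hT : T ⊆ sphere 0 R}

private theorem sd_mem_dom {v : Vert} {t R : ℕ} (ht : 1 ≤ t) :
    v ∈ dom t R ↔ nrm v ≤ R ∧ (t : ℤ) ≤ nrm v := by
  rw [dom, Set.mem_sdiff, mem_ball_zero, mem_ball_zero]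
  constructor
  · rintro ⟨h1, h2⟩
    exact ⟨h1, by omega⟩
  · rintro ⟨h1, h2⟩
    exact ⟨h1, by omega⟩

private theorem sd_dom_anti {t t' R : ℕ} (ht : 1 ≤ t) (h : t ≤ t') : dom t' R ⊆ dom t R := by
  intro v hv
  rw [sd_mem_dom (by omega)] at hv
  rw [sd_mem_dom ht]
  exact ⟨hv.1, by omega⟩

private theorem sd_diff_sub {t' R : ℕ} {G : Set Vert} (hG : G ⊆ ball 0 R) :
    G \ ball 0 (t' - 1) ⊆ dom t' R := fun _ hv => ⟨hG hv.1, hv.2⟩

theorem bd_std : (std m R L T hm hR hL hT).Bd = sphere 0 (16 * m) := by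
  ext v
  constructor
  · rintro (h | ⟨hv, e, w, he, hw, hwD⟩)
    · exact h
    · change v ∈ dom (16 * m) R at hv
      change w ∈ ball 0 R at hw
      change w ∉ dom (16 * m) R at hwD
      have hw' : w ∈ ball 0 (16 * m - 1) := by
        by_contra hc
        exact hwD ⟨hw, hc⟩
      rw [sd_mem_dom (by omega)] at hv
      rw [mem_ball_zero] at hw'
      have h1 := nrm_le_of_mem_ball (joins_ball (joins_symm he))
      rw [mem_sphere_zero]
      have h2 := hv.2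
      push_cast at h1 h2 ⊢
      omega
  · intro h
    exact Or.inl h

theorem out_eq_BT (t : ℕ) : Out (dom t R) L T t = BT t R L T := rfl

private theorem sd_reach {ω : Config} {G : Set Vert} {t' R : ℕ} {p u : Vert} (ht : 1 ≤ t')
    (hG : G ⊆ ball 0 R) (hc : Conn ω G p u) (hp : nrm p ≤ t') (hu : (t' : ℤ) ≤ nrm u) :
    ∃ v ∈ sphere 0 t', Conn ω (dom t' R) u v := by
  have hu' : u ∉ ball 0 (t' - 1) := by
    rw [mem_ball_zero]
    omega
  obtain ⟨v, hv, hc'⟩ := leave_sphere ht hc (mem_ball_zero.2 hp) hu'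
  exact ⟨v, hv, (hc'.mono_set (sd_diff_sub hG)).symm⟩

theorem BT_mono {t t' : ℕ} (h1 : 1 ≤ t) (h : t ≤ t') (h' : t' ≤ R) (hL : L ⊆ sphere 0 R)
    (hT : T ⊆ sphere 0 R) : BT t R L T ⊆ BT t' R L T := by
  rintro ω ⟨⟨u, huL, v, hv, hc, hn⟩, w, hwT, v', hv', hc'⟩
  have hsub : dom t R ⊆ ball 0 R := fun _ hx => hx.1
  rw [mem_sphere_zero] at hv hv'
  refine ⟨?_, ?_⟩
  · have hu := mem_sphere_zero.1 (hL huL)
    obtain ⟨v1, hv1, hc1⟩ := sd_reach (t' := t') (by omega) hsub hc.symm (by omega) (by omega)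
    exact ⟨u, huL, v1, hv1, hc1, fun x hx hcx => hn x hx (hcx.mono_set (sd_dom_anti h1 h))⟩
  · have hw := mem_sphere_zero.1 (hT hwT)
    obtain ⟨v1, hv1, hc1⟩ := sd_reach (t' := t') (by omega) hsub hc'.symm (by omega) (by omega)
    exact ⟨w, hwT, v1, hv1, hc1⟩

private theorem sd_GG_sub {s n : ℕ} {γ : ℕ → Vert} (hz : zone γ n s ⊆ ball 0 (17 * m)) :
    GG (std m R L T hm hR hL hT) s γ n ⊆ ball 0 R := by
  rintro v ((hv | hv) | hv)
  · change v ∈ ball 0 (4 * m) at hv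
    rw [mem_ball_zero] at hv ⊢
    push_cast at hv
    omega
  · exact hv.1
  · have := hz hv
    rw [mem_ball_zero] at this ⊢
    push_cast at this
    omega

private theorem sd_dom_GG {s n : ℕ} {γ : ℕ → Vert} :
    dom (64 * m) R ⊆ GG (std m R L T hm hR hL hT) s γ n := by
  intro v hv
  refine Or.inl (Or.inr ?_)
  exact sd_dom_anti (t := 16 * m) (t' := 64 * m) (by omega) (by omega) hv

theorem e1_BT {s n : ℕ} {γ : ℕ → Vert} {b b' : Vert} (hz : zone γ n s ⊆ ball 0 (17 * m)) :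
    E1 (std m R L T hm hR hL hT) s b b' (GG (std m R L T hm hR hL hT) s γ n) ⊆
      BT (64 * m) R L T := by
  rintro ω ⟨⟨u, hu1, huL⟩, _, ⟨p, hp3, hp⟩, _, _, _, _, _, hd⟩
  have hGs := sd_GG_sub (m := m) (R := R) (L := L) (T := T) (hm := hm) (hR := hR) (hL := hL)
    (hT := hT) (γ := γ) (n := n) (s := s) hz
  set G := GG (std m R L T hm hR hL hT) s γ n with hG
  change u ∈ L at huL
  change p ∈ sphere 0 (16 * m) at hp
  have huR := mem_sphere_zero.1 (hL huL)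
  rw [mem_sphere_zero] at hp
  have hxu : Conn ω G 0 u := mem_cl_iff.1 hu1
  obtain ⟨w, hwT, hwp⟩ := hp3
  change w ∈ T at hwT
  have hwR := mem_sphere_zero.1 (hT hwT)
  refine ⟨?_, ?_⟩
  · obtain ⟨v, hv, hc⟩ := sd_reach (t' := 64 * m) (by omega) hGs hxu
      (by simp [nrm]) (by push_cast; omega)
    refine ⟨u, huL, v, hv, hc, ?_⟩
    intro x hx hcx
    have h1 : Conn ω G x u := (hcx.mono_set sd_dom_GG).symm
    have h2 : u ∈ cl ω G T := ⟨x, hx, h1⟩
    exact Set.disjoint_left.1 hd hu1 h2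
  · obtain ⟨v, hv, hc⟩ := sd_reach (t' := 64 * m) (by omega) hGs hwp.symm
      (by push_cast at hp ⊢; omega) (by push_cast; omega)
    exact ⟨w, hwT, v, hv, hc⟩

theorem fin_sub {s n : ℕ} {γ : ℕ → Vert} (hz : zone γ n s ⊆ ball 0 (17 * m)) :
    Fin (std m R L T hm hR hL hT) s γ n ⊆ Four 0 (1, 0) R := by
  rintro ω ⟨⟨u, hu, huL⟩, w, hwT, hc⟩
  have hGs := sd_GG_sub (m := m) (R := R) (L := L) (T := T) (hm := hm) (hR := hR) (hL := hL)
    (hT := hT) (γ := γ) (n := n) (s := s) hz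
  refine ⟨⟨u, hL huL, mem_cl_iff.1 hu⟩, ⟨w, hT hwT, hc.mono_set (fun v hv => hGs hv.1)⟩, ?_⟩
  intro h
  exact hc.mem_left.2 (mem_cl_iff.2 h)

/-- The four-arm probability. -/
theorem a4_eq (q : I) (r : ℕ) : a4 q r = PrE q {(0, 0, false)} (Four 0 (1, 0) r) := by
  have hs : src (0, 0, false) = 0 := rfl
  have ht : tgt (0, 0, false) = (1, 0) := rfl
  have hcl : ∀ ω : Config, close (0, 0, false) ω = shut {(0, 0, false)} ω := by
    intro ω
    funext e
    unfold close shut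
    by_cases h : e = (0, 0, false)
    · rw [h, Function.update_self]
      simp
    · rw [Function.update_of_ne h]
      simp [h]
  unfold a4 PrE
  congr 1
  ext ω
  simp only [A4, Four, Set.mem_ofPred_eq, hs, ht, hcl]

/-- The terminals are far from the outer sphere. -/
theorem far_std {z v : Vert} {ρ : ℕ} (hρ : ρ ≤ 2 * m) (hR : 64 * m ≤ R) (hm : 10 ≤ m)
    (hz : z ∈ sphere 0 (16 * m)) (hv : v ∈ sphere 0 R) : v ∉ ball z ρ := by
  intro h
  have h1 := nrm_le_of_mem_ball h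
  rw [mem_sphere_zero] at hz hv
  push_cast at hz
  omega

end Pool.Agent.H57.EX
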