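import Pool.Agent.H57.EX.Near
import Pool.Agent.H57.EX.StdDet

/-!
# The standard data: probability of the bad events
-/

open MeasureTheory ProbabilityTheory unitInterval

namespace Pool.Agent.H57.EX

open Pool.Agent.H89.Perc Pool.Agent.H61.NC Pool.Agent.H29.Sep

/-- Connections inside `S` only look at the edges inside `S`. -/
private theorem conn_iff_of_local {s : Finset Edge} {S : Set Vert} {ω ω' : Config}
    (hs : ∀ e, src e ∈ S → tgt e ∈ S → e ∈ s) (h : ∀ e ∈ s, ω e = ω' e) (u v : Vert) :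
    Conn ω S u v ↔ Conn ω' S u v :=
  ⟨Conn.congr fun e h1 h2 => h e (hs e h1 h2),
    Conn.congr fun e h1 h2 => (h e (hs e h1 h2)).symm⟩

private theorem localOn_locTwo_aux {s : Finset Edge} {Z D : Set Vert} {t ρ : ℕ}
    (hs : ∀ z ∈ Z, ∀ e, src e ∈ D ∩ ball z ρ → tgt e ∈ D ∩ ball z ρ → e ∈ s) :
    LocalOn s {ω | ∃ z ∈ Z, ω ∈ LocTwo D z t ρ} := by
  rintro ω ω' h ⟨z, hz, u, hu, u', hu', v, hv, v', hv', h1, h2, h3⟩
  refine ⟨z, hz, u, hu, u', hu', v, hv, v', hv', ?_, ?_, ?_⟩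
  · exact (conn_iff_of_local (hs z hz) h _ _).1 h1
  · exact (conn_iff_of_local (hs z hz) h _ _).1 h2
  · exact fun h4 => h3 ((conn_iff_of_local (hs z hz) h _ _).2 h4)

private theorem dom_subset {t R : ℕ} : dom t R ⊆ ball 0 R := fun _ h => h.1

theorem localOn_four {x y : Vert} {r : ℕ} : LocalOn (eIn r (ball 0 r)) (Four x y r) := by
  have hs : ∀ e, src e ∈ ball 0 r → tgt e ∈ ball 0 r → e ∈ eIn r (ball 0 r) :=
    fun e h1 h2 => (mem_eIn subset_rfl).2 ⟨h1, h2⟩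
  rintro ω ω' h ⟨⟨u, hu, h1⟩, ⟨u', hu', h2⟩, h3⟩
  refine ⟨⟨u, hu, ?_⟩, ⟨u', hu', ?_⟩, ?_⟩
  · exact (conn_iff_of_local hs h _ _).1 h1
  · exact (conn_iff_of_local hs h _ _).1 h2
  · exact fun h4 => h3 ((conn_iff_of_local hs h _ _).2 h4)

theorem localOn_BT {t R : ℕ} {L T : Set Vert} : LocalOn (eIn R (dom t R)) (BT t R L T) := by
  have hs : ∀ e, src e ∈ dom t R → tgt e ∈ dom t R → e ∈ eIn R (dom t R) :=
    fun e h1 h2 => (mem_eIn dom_subset).2 ⟨h1, h2⟩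
  rintro ω ω' h ⟨⟨u, hu, v, hv, h1, h2⟩, w, hw, v', hv', h3⟩
  refine ⟨⟨u, hu, v, hv, (conn_iff_of_local hs h _ _).1 h1, ?_⟩, w, hw, v', hv',
    (conn_iff_of_local hs h _ _).1 h3⟩
  exact fun w hw h4 => h2 w hw ((conn_iff_of_local hs h _ _).2 h4)

theorem localOn_locTwo_in {m t ρ : ℕ} (hρ : ρ ≤ 2 * m) :
    LocalOn (eIn (4 * m) (dom (2 * m) (4 * m)))
      {ω | ∃ z ∈ sphere 0 (4 * m), ω ∈ LocTwo (ball 0 (4 * m)) z t ρ} := by
  apply localOn_locTwo_aux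
  rintro z hz e ⟨h1, h2⟩ ⟨h3, h4⟩
  rw [mem_eIn dom_subset]
  rw [mem_sphere_zero] at hz
  rcases Nat.eq_zero_or_pos m with hm | hm
  · exfalso
    subst hm
    simp only [mem_ball, Prod.fst_zero, Prod.snd_zero, Nat.mul_zero, Nat.cast_zero] at h1 h3
    have h5 : (src e).1 = (tgt e).1 := by omega
    have h6 : (src e).2 = (tgt e).2 := by omega
    unfold src tgt at h5 h6
    split_ifs at h5 h6 <;> simp at h5 h6
  · have key : ∀ v, v ∈ ball 0 (4 * m) → v ∈ ball z ρ → v ∈ dom (2 * m) (4 * m) := by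
      intro v hv hv'
      refine ⟨hv, fun h => ?_⟩
      have h5 := le_nrm_of_mem_ball hv'
      rw [mem_ball_zero] at h
      push_cast at hz h
      omega
    exact ⟨key _ h1 h2, key _ h3 h4⟩

theorem localOn_locTwo_out {m R t ρ : ℕ} (hρ : ρ ≤ 2 * m) :
    LocalOn (eIn (18 * m) (dom (16 * m) (18 * m)))
      {ω | ∃ z ∈ sphere 0 (16 * m), ω ∈ LocTwo (dom (16 * m) R) z t ρ} := by
  apply localOn_locTwo_aux
  rintro z hz e ⟨h1, h2⟩ ⟨h3, h4⟩
  rw [mem_eIn dom_subset]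
  rw [mem_sphere_zero] at hz
  have key : ∀ v, v ∈ dom (16 * m) R → v ∈ ball z ρ → v ∈ dom (16 * m) (18 * m) := by
    intro v hv hv'
    refine ⟨?_, hv.2⟩
    have h5 := nrm_le_of_mem_ball hv'
    rw [mem_ball_zero]
    push_cast at hz ⊢
    omega
  exact ⟨key _ h1 h2, key _ h3 h4⟩

/-- The two local events in the domains of `BadOut` and of the standard data are the same. -/
theorem locTwo_out_eq {m R t ρ : ℕ} (hR : 64 * m ≤ R) (hρ : ρ ≤ 2 * m) {z : Vert}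
    (hz : z ∈ sphere 0 (16 * m)) :
    LocTwo (dom (16 * m) R) z t ρ = LocTwo (ball 0 (16 * m - 1))ᶜ z t ρ := by
  have key : dom (16 * m) R ∩ ball z ρ = (ball 0 (16 * m - 1))ᶜ ∩ ball z ρ := by
    ext v
    constructor
    · rintro ⟨h1, h2⟩
      exact ⟨h1.2, h2⟩
    · rintro ⟨h1, h2⟩
      refine ⟨⟨?_, h1⟩, h2⟩
      have h5 := nrm_le_of_mem_ball h2
      rw [mem_sphere_zero] at hz
      rw [mem_ball_zero]
      push_cast at hz
      omega
  unfold LocTwo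
  rw [key]

/-- Edges of two domains at different distances. -/
private theorem eIn_disjoint {R R' : ℕ} {D D' : Set Vert} (h : D ⊆ ball 0 R) (h' : D' ⊆ ball 0 R')
    (hd : ∀ v, v ∈ D → v ∉ D') : Disjoint (eIn R D) (eIn R' D') := by
  rw [Finset.disjoint_left]
  intro e he he'
  rw [mem_eIn h] at he
  rw [mem_eIn h'] at he'
  exact hd _ he.1 he'.1

private theorem eIn_disjoint_edge {R : ℕ} {D : Set Vert} (h : D ⊆ ball 0 R)
    (hd : (0 : Vert) ∉ D) : Disjoint (eIn R D) {(0, 0, false)} := by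
  rw [Finset.disjoint_singleton_right]
  intro he
  rw [mem_eIn h] at he
  exact hd he.1

private theorem zero_notMem_dom {t R : ℕ} : (0 : Vert) ∉ dom t R := by
  intro h
  apply h.2
  simp only [mem_ball, Prod.fst_zero, Prod.snd_zero]
  omega

private theorem four_bt_bad {m R r₁ t₁ : ℕ} {L T : Set Vert} {q : I} {A : Set Config} (hm : 10 ≤ m)
    (h1 : m < t₁) (h2 : r₁ < 64 * m)
    (hA : LocalOn (eIn r₁ (dom t₁ r₁)) A) :
    PrE q {(0, 0, false)} (Four 0 (1, 0) m ∩ BT (64 * m) R L T ∩ A) =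
      a4 q m * Pr q (BT (64 * m) R L T) * Pr q A := by
  classical
  have d1 : Disjoint (eIn m (ball 0 m)) (eIn r₁ (dom t₁ r₁)) := by
    apply eIn_disjoint subset_rfl dom_subset
    intro v hv hv'
    apply hv'.2
    exact ball_mono (by omega) hv
  have d2 : Disjoint (eIn m (ball 0 m)) (eIn R (dom (64 * m) R)) := by
    apply eIn_disjoint subset_rfl dom_subset
    intro v hv hv'
    apply hv'.2
    exact ball_mono (by omega) hv
  have d3 : Disjoint (eIn R (dom (64 * m) R)) (eIn r₁ (dom t₁ r₁)) := by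
    apply eIn_disjoint dom_subset dom_subset
    intro v hv hv'
    apply hv.2
    exact ball_mono (by omega) hv'.1
  have hFB : LocalOn (eIn m (ball 0 m) ∪ eIn R (dom (64 * m) R))
      (Four 0 (1, 0) m ∩ BT (64 * m) R L T) := localOn_four.inter' localOn_BT
  rw [PrE_inter hFB hA (Finset.disjoint_union_left.2 ⟨d1, d3⟩),
    PrE_inter localOn_four localOn_BT d2, a4_eq,
    PrE_eq localOn_BT (eIn_disjoint_edge dom_subset zero_notMem_dom),
    PrE_eq hA (eIn_disjoint_edge dom_subset zero_notMem_dom)]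

/-- Probability of the bad events together with four arms inside and outside. -/
theorem bad_std (hI : BadIn) (hO : BadOut) : ∀ c : ℝ, 0 < c → ∃ C κ : ℝ, 0 < C ∧ 0 < κ ∧
    ∀ (m R n t ρ : ℕ) (q : I) (L T : Set Vert), 10 ≤ m → 64 * m ≤ R → R ≤ n →
      RSWreg c n q → 1 ≤ t → t ≤ ρ → ρ ≤ 2 * m →
      PrE q {(0, 0, false)} (Four 0 (1, 0) m ∩ BT (64 * m) R L T ∩
          ({ω | ∃ z ∈ sphere 0 (4 * m), ω ∈ LocTwo (ball 0 (4 * m)) z t ρ} ∪
            {ω | ∃ z ∈ sphere 0 (16 * m), ω ∈ LocTwo (dom (16 * m) R) z t ρ})) ≤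
        C * ((m : ℝ) / ρ) * ((t : ℝ) / ρ) ^ κ * (a4 q m * Pr q (BT (64 * m) R L T)) := by
  intro c hc
  obtain ⟨C₁, κ₁, hC₁, hκ₁, H₁⟩ := hI c hc
  obtain ⟨C₂, κ₂, hC₂, hκ₂, H₂⟩ := hO c hc
  refine ⟨4 * C₁ + 16 * C₂, min κ₁ κ₂, by positivity, lt_min hκ₁ hκ₂, ?_⟩
  intro m R n t ρ q L T hm hR hn hreg ht htρ hρ
  have hρ0 : (0 : ℝ) < ρ := by
    have : 0 < ρ := by omega
    exact_mod_cast this
  have ht0 : (0 : ℝ) < t := by
    have : 0 < t := by omega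
    exact_mod_cast this
  have hx0 : (0 : ℝ) < (t : ℝ) / ρ := div_pos ht0 hρ0
  have hx1 : (t : ℝ) / ρ ≤ 1 := by
    rw [div_le_one hρ0]
    exact_mod_cast htρ
  have ha4 : 0 ≤ a4 q m * Pr q (BT (64 * m) R L T) := mul_nonneg Pr_nonneg Pr_nonneg
  have hpw₁ : ((t : ℝ) / ρ) ^ κ₁ ≤ ((t : ℝ) / ρ) ^ (min κ₁ κ₂) :=
    Real.rpow_le_rpow_of_exponent_ge hx0 hx1 (min_le_left _ _)
  have hpw₂ : ((t : ℝ) / ρ) ^ κ₂ ≤ ((t : ℝ) / ρ) ^ (min κ₁ κ₂) :=
    Real.rpow_le_rpow_of_exponent_ge hx0 hx1 (min_le_right _ _)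
  have e1 : Pr q {ω | ∃ z ∈ sphere 0 (4 * m), ω ∈ LocTwo (ball 0 (4 * m)) z t ρ} ≤
      4 * C₁ * ((m : ℝ) / ρ) * ((t : ℝ) / ρ) ^ (min κ₁ κ₂) := by
    have h := H₁ n t ρ (4 * m) q ht htρ (by omega) (by omega) hreg
    refine h.trans ?_
    have h2 : C₁ * (((4 * m : ℕ) : ℝ) / ρ) = 4 * C₁ * ((m : ℝ) / ρ) := by
      push_cast
      ring
    rw [h2]
    exact mul_le_mul_of_nonneg_left hpw₁ (by positivity)
  have e2 : Pr q {ω | ∃ z ∈ sphere 0 (16 * m), ω ∈ LocTwo (dom (16 * m) R) z t ρ} ≤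
      16 * C₂ * ((m : ℝ) / ρ) * ((t : ℝ) / ρ) ^ (min κ₁ κ₂) := by
    have h := H₂ n t ρ (16 * m) q ht htρ (by omega) (by omega) hreg
    have h3 : {ω | ∃ z ∈ sphere 0 (16 * m), ω ∈ LocTwo (dom (16 * m) R) z t ρ} =
        {ω | ∃ z ∈ sphere 0 (16 * m), ω ∈ LocTwo (ball 0 (16 * m - 1))ᶜ z t ρ} := by
      ext ω
      constructor
      · rintro ⟨z, hz, h⟩
        exact ⟨z, hz, locTwo_out_eq hR hρ hz ▸ h⟩
      · rintro ⟨z, hz, h⟩
        exact ⟨z, hz, (locTwo_out_eq hR hρ hz).symm ▸ h⟩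
    rw [h3]
    refine h.trans ?_
    have h2 : C₂ * (((16 * m : ℕ) : ℝ) / ρ) = 16 * C₂ * ((m : ℝ) / ρ) := by
      push_cast
      ring
    rw [h2]
    exact mul_le_mul_of_nonneg_left hpw₂ (by positivity)
  rw [Set.inter_union_distrib_left]
  refine PrE_union_le.trans ?_
  rw [four_bt_bad hm (by omega) (by omega) (localOn_locTwo_in hρ),
    four_bt_bad hm (by omega) (by omega) (localOn_locTwo_out hρ)]
  have := mul_le_mul_of_nonneg_left e1 ha4
  have := mul_le_mul_of_nonneg_left e2 ha4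
  nlinarith

end Pool.Agent.H57.EX
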