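import Pool.Agent.H57.EX.Walk

/-!
# Near clusters give two clusters of a local domain
-/

open MeasureTheory ProbabilityTheory unitInterval

namespace Pool.Agent.H57.EX

open Pool.Agent.H89.Perc Pool.Agent.H61.NC Pool.Agent.H29.Sep

private lemma near_norm_center {v : Vert} {r : ℕ} (h : v ∈ ball 0 r) : nrm v ≤ r :=
  mem_ball_zero.mp h

private lemma not_mem_of_far {x z : Vert} {ρ : ℕ} (h : nrm x + ρ < nrm z) : x ∉ ball z ρ := by
  intro hx
  have := le_nrm_of_mem_ball hx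
  omega

/-- The common part of the three inclusions. -/
private lemma locTwo_of {ω : Config} {D : Set Vert} {z : Vert} {t ρ : ℕ} (ht : t ≤ ρ)
    {G : Set Vert} (hG : G ∩ ball z ρ ⊆ D) (hDG : D ⊆ G) {p p' a a' : Vert} (hp : p ∈ ball z t)
    (hp' : p' ∈ ball z t) (h1 : Conn ω G p a) (h2 : Conn ω G p' a') (ha : a ∉ ball z ρ)
    (ha' : a' ∉ ball z ρ) (hn : ¬ Conn ω G p p') : ω ∈ LocTwo D z t ρ := by
  obtain ⟨v, hv, h3⟩ := reach_sphere h1 (ball_mono ht hp) (Or.inl ha)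
  obtain ⟨v', hv', h4⟩ := reach_sphere h2 (ball_mono ht hp') (Or.inl ha')
  have hsub : G ∩ ball z ρ ⊆ D ∩ ball z ρ := fun w hw => ⟨hG hw, hw.2⟩
  refine ⟨p, hp, p', hp', v, hv, v', hv', h3.mono_set hsub, h4.mono_set hsub, fun h => hn ?_⟩
  exact h.mono_set fun w hw => hDG hw.1

theorem nearIn_sub {Z : Dat} {t ρ : ℕ} (ht : t ≤ ρ) (hρ : ρ ≤ 2 * Z.m) :
    Four Z.x Z.y (4 * Z.m) ∩ NearIn Z t ⊆
      {ω | ∃ z ∈ sphere 0 (4 * Z.m), ω ∈ LocTwo (ball 0 (4 * Z.m)) z t ρ} := by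
  rintro ω ⟨⟨-, -, hxy⟩, z, hz, ⟨p, hp, hpz⟩, ⟨p', hp', hpz'⟩⟩
  rw [mem_cl_iff] at hp hp'
  have hnz := mem_sphere_zero.mp hz
  have hx := near_norm_center Z.hx
  have hy := near_norm_center Z.hy
  have hm := Z.hm
  push_cast at hnz hx hy
  refine ⟨z, hz, locTwo_of ht (G := Z.B) (fun w hw => hw.1) (fun w hw => hw) hpz hpz' hp.symm
    hp'.symm (not_mem_of_far (by omega)) (not_mem_of_far (by omega)) fun h => hxy ?_⟩
  exact (hp.trans h).trans hp'.symm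

theorem nearOut_sub {Z : Dat} {t ρ : ℕ} (ht : t ≤ ρ)
    (hfar : ∀ z ∈ sphere 0 (16 * Z.m), ∀ v, v ∈ Z.L ∨ v ∈ Z.T → v ∉ ball z ρ) :
    NearOut Z t ⊆ {ω | ∃ z ∈ sphere 0 (16 * Z.m), ω ∈ LocTwo Z.D z t ρ} := by
  rintro ω ⟨z, hz, u, hu, huT, ⟨p, hp, hpz⟩, ⟨p', ⟨w, hw, hp'⟩, hpz'⟩⟩
  rw [mem_cl_iff] at hp
  refine ⟨z, hz, locTwo_of ht (G := Z.D) (fun w hw => hw.1) (fun w hw => hw) hpz hpz' hp.symm
    hp'.symm (hfar z hz u (Or.inl hu)) (hfar z hz w (Or.inr hw)) fun h => huT ?_⟩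
  exact ⟨w, hw, (hp'.trans h.symm).trans hp.symm⟩

theorem e1_nb_sub {Z : Dat} {s n : ℕ} {γ : ℕ → Vert} {b b' : Vert} {t ρ : ℕ}
    (hsm : 100 * s ≤ Z.m) (hg : ZGood Z.m s γ n b b') (ht : t ≤ ρ) (hρ : ρ ≤ 5 * s)
    (hfar : ∀ z ∈ Z.Bd, ∀ v ∈ Z.T, v ∉ ball z ρ) :
    E1 Z s b b' (GG Z s γ n) \ NB Z t (GG Z s γ n) ⊆
      {ω | ∃ z ∈ sphere 0 (4 * Z.m), ω ∈ LocTwo (ball 0 (4 * Z.m)) z t ρ} ∪
        {ω | ∃ z ∈ Z.Bd, ω ∈ LocTwo Z.D z t ρ} := by
  rintro ω ⟨⟨-, -, -, -, -, h2b, h3b, h12, h13⟩, hnb⟩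
  have hx := near_norm_center Z.hx
  have hm := Z.hm
  push_cast at hx
  have hnb' : ¬ ((∀ z ∈ sphere 0 (4 * Z.m), (cl ω (GG Z s γ n) {Z.x} ∩ ball z t).Nonempty →
      ¬ (cl ω (GG Z s γ n) {Z.y} ∩ ball z t).Nonempty) ∧
    ∀ z ∈ Z.Bd, (cl ω (GG Z s γ n) {Z.x} ∩ ball z t).Nonempty →
      ¬ (cl ω (GG Z s γ n) Z.T ∩ ball z t).Nonempty) := hnb
  rw [not_and_or] at hnb'
  push Not at hnb'
  -- a vertex of the zone near a point of the clusters contradicts `P1`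
  have hclose : ∀ {a p' z c : Vert}, a ∈ ball z ρ → p' ∈ ball z t → a ∈ ball c (20 * s) →
      p' ∈ ball c (38 * s) := by
    intro a p' z c h1 h2 h3
    have h4 := ball_trans (ball_trans h3 (mem_ball_comm.mp h1)) h2
    exact ball_mono (by omega) h4
  rcases hnb' with ⟨z, hz, ⟨p, hp, hpz⟩, ⟨p', hp', hpz'⟩⟩ | ⟨z, hz, ⟨p, hp, hpz⟩, ⟨p', hp', hpz'⟩⟩
  · left
    have hnz := mem_sphere_zero.mp hz
    push_cast at hnz
    have e1 := mem_cl_iff.mp hp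
    have e2 := mem_cl_iff.mp hp'
    have hy := near_norm_center Z.hy
    push_cast at hy
    refine ⟨z, hz, locTwo_of ht (G := GG Z s γ n) ?_ ?_ hpz hpz' e1.symm e2.symm
      (not_mem_of_far (by omega)) (not_mem_of_far (by omega)) fun h => ?_⟩
    · rintro a ⟨(ha | ha) | ha, haz⟩
      · exact ha
      · exfalso
        have h1 := Z.hD a ha
        have h2 := nrm_le_of_mem_ball haz
        omega
      · exfalso
        have h2 := nrm_le_of_mem_ball haz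
        have h3 := hg.inner a ha (by omega)
        exact Set.disjoint_left.mp h2b hp' (hclose haz hpz' h3)
    · exact fun w hw => Or.inl (Or.inl hw)
    · exact Set.disjoint_left.mp h12 (mem_cl_iff.mpr (e1.trans h)) hp'
  · right
    have hnz : 16 * (Z.m : ℤ) ≤ nrm z := by
      rcases hz with hz | hz
      · have := mem_sphere_zero.mp hz
        push_cast at this
        omega
      · exact Z.hD z hz.1
    have e1 := mem_cl_iff.mp hp
    obtain ⟨w, hw, e2⟩ := hp'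
    refine ⟨z, hz, locTwo_of ht (G := GG Z s γ n) ?_ ?_ hpz hpz' e1.symm e2.symm
      (not_mem_of_far (by omega)) (hfar z hz w hw) fun h => ?_⟩
    · rintro a ⟨(ha | ha) | ha, haz⟩
      · exfalso
        have h1 := mem_ball_zero.mp ha
        have h2 := le_nrm_of_mem_ball haz
        push_cast at h1
        omega
      · exact ha
      · exfalso
        have h2 := le_nrm_of_mem_ball haz
        have h3 := hg.outer a ha (by omega)
        exact Set.disjoint_left.mp h3b ⟨w, hw, e2⟩ (hclose haz hpz' h3)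
    · exact fun w hw => Or.inl (Or.inr hw)
    · exact Set.disjoint_left.mp h13 (mem_cl_iff.mpr (e1.trans h)) ⟨w, hw, e2⟩

theorem e1_four {Z : Dat} {s n : ℕ} {γ : ℕ → Vert} {b b' : Vert} :
    E1 Z s b b' (GG Z s γ n) ⊆ Four Z.x Z.y Z.m := by
  rintro ω ⟨⟨u, hu, huL⟩, ⟨u', hu', huS⟩, -, -, -, -, -, h12, -⟩
  have hm := Z.hm
  have hsub : ball 0 Z.m ⊆ GG Z s γ n := fun w hw => Or.inl (Or.inl (ball_mono (by omega) hw))
  have hx : Z.x ∈ ball 0 Z.m := ball_mono (by omega) Z.hx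
  have hy : Z.y ∈ ball 0 Z.m := ball_mono (by omega) Z.hy
  have hu1 : u ∉ ball 0 Z.m := by
    intro h
    have h1 := mem_ball_zero.mp h
    have h2 := (Z.hL u huL).2
    omega
  have hu2 : u' ∉ ball 0 Z.m := by
    intro h
    have h1 := mem_ball_zero.mp h
    have h2 := mem_sphere_zero.mp huS
    push_cast at h2
    omega
  obtain ⟨v, hv, h1⟩ := reach_sphere (mem_cl_iff.mp hu) hx (Or.inl hu1)
  obtain ⟨v', hv', h2⟩ := reach_sphere (mem_cl_iff.mp hu') hy (Or.inl hu2)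
  refine ⟨⟨v, hv, h1.mono_set Set.inter_subset_right⟩, ⟨v', hv', h2.mono_set Set.inter_subset_right⟩,
    fun h => ?_⟩
  exact Set.disjoint_left.mp h12 (mem_cl_iff.mpr (h.mono_set hsub)) (mem_cl_self (hsub hy))

theorem four_mono {x y : Vert} {r r' : ℕ} (hx : x ∈ ball 0 r) (hy : y ∈ ball 0 r) (h : r ≤ r') :
    Four x y r' ⊆ Four x y r := by
  rintro ω ⟨⟨u, hu, h1⟩, ⟨u', hu', h2⟩, h3⟩
  have key : ∀ u : Vert, u ∈ sphere 0 r' → u ∉ ball 0 r ∨ u ∈ sphere 0 r := by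
    intro u hu
    have h4 := mem_sphere_zero.mp hu
    rcases h.eq_or_lt with h5 | h5
    · right
      rw [h5]
      exact hu
    · left
      intro h6
      have := mem_ball_zero.mp h6
      omega
  obtain ⟨v, hv, h4⟩ := reach_sphere h1 hx (key u hu)
  obtain ⟨v', hv', h5⟩ := reach_sphere h2 hy (key u' hu')
  exact ⟨⟨v, hv, h4.mono_set Set.inter_subset_right⟩, ⟨v', hv', h5.mono_set Set.inter_subset_right⟩,
    fun h6 => h3 (h6.mono_set (ball_mono h))⟩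

end Pool.Agent.H57.EX
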