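import Pool.Agent.H57.EX.Walk
import Pool.Agent.H57.EX.Chain

/-!
# First gluing: `x` is glued to `L`
-/

open MeasureTheory ProbabilityTheory unitInterval

namespace Pool.Agent.H57.EX

open Pool.Agent.H89.Perc Pool.Agent.H61.NC Pool.Agent.H29.Sep

private theorem nrm_joins {e : Edge} {v w : Vert} (h : Joins e v w) :
    nrm w ≤ nrm v + 1 ∧ nrm v - 1 ≤ nrm w :=
  ⟨by simpa using nrm_le_of_mem_ball (joins_ball h), by
    simpa using le_nrm_of_mem_ball (joins_ball h)⟩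

private theorem not_mem_of_disj {A B : Set Vert} (h : Disjoint A B) {v : Vert} (hv : v ∈ A) :
    v ∉ B := fun hv' => Set.disjoint_left.1 h hv hv'

private theorem cl_y_eq {Z : Dat} {s n : ℕ} {γ : ℕ → Vert} {b b' : Vert} (hs : 1 ≤ s)
    (hg : ZGood Z.m s γ n b b') {ω : Config} (h : Disjoint (cl ω Z.B {Z.y}) (ball b (38 * s))) :
    cl ω (GG Z s γ n) {Z.y} = cl ω Z.B {Z.y} := by
  have hm := Z.hm
  refine cl_eq_cl (fun v hv => Or.inl (Or.inl hv)) ?_ ?_
  · rintro v rfl -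
    have h1 := mem_ball_zero.1 Z.hy
    exact mem_ball_zero.2 (by push_cast at h1 ⊢; omega)
  · intro v hv e w he hw
    have hvB : nrm v ≤ 4 * Z.m := by
      have := mem_ball_zero.1 (cl_sub hv)
      push_cast at this
      exact this
    obtain ⟨h1, h2⟩ := nrm_joins he
    rcases hw with (hw | hw) | hw
    · exact hw
    · have := Z.hD w hw
      omega
    · exfalso
      have h3 := hg.inner w hw (by omega)
      have h4 : v ∈ ball b (38 * s) := by
        have h5 := ball_trans h3 (joins_ball (joins_symm he))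
        exact ball_mono (by omega) h5
      exact not_mem_of_disj h hv h4

private theorem cl_T_eq {Z : Dat} {s n : ℕ} {γ : ℕ → Vert} {b b' : Vert} (hs : 1 ≤ s)
    (hg : ZGood Z.m s γ n b b') {ω : Config} (h : Disjoint (cl ω Z.D Z.T) (ball b' (38 * s))) :
    cl ω (GG Z s γ n) Z.T = cl ω Z.D Z.T := by
  have hm := Z.hm
  refine cl_eq_cl (fun v hv => Or.inl (Or.inr hv)) (fun v hv _ => (Z.hT v hv).1) ?_
  intro v hv e w he hw
  have hvD : 16 * (Z.m : ℤ) ≤ nrm v := Z.hD v (cl_sub hv)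
  obtain ⟨h1, h2⟩ := nrm_joins he
  rcases hw with (hw | hw) | hw
  · have := mem_ball_zero.1 hw
    push_cast at this
    omega
  · exact hw
  · exfalso
    have h3 := hg.outer w hw (by omega)
    have h4 : v ∈ ball b' (38 * s) := by
      have h5 := ball_trans h3 (joins_ball (joins_symm he))
      exact ball_mono (by omega) h5
    exact not_mem_of_disj h hv h4

/-- Deterministic part of the first gluing. -/
theorem stage1_det {Z : Dat} {s n : ℕ} {γ : ℕ → Vert} {b b' : Vert} (hs : 1 ≤ s)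
    (hsm : 100 * s ≤ Z.m) (hb : b ∈ sphere 0 (4 * Z.m)) (hb' : b' ∈ sphere 0 (16 * Z.m))
    (hg : ZGood Z.m s γ n b b') {ω : Config} (h : ω ∈ E0 Z s b b') (ho : ω ∈ AllCirc γ n s) :
    ω ∈ E1 Z s b b' (GG Z s γ n) := by
  obtain ⟨⟨u, hu, hxu⟩, hxy, ⟨a, haL, haT, w, hw, haw⟩, hy4, hT16, hd, hd'⟩ := h
  have hm := Z.hm
  have ey := cl_y_eq hs hg hd
  have eT := cl_T_eq hs hg hd'
  have hnb : nrm b = 4 * Z.m := by
    have := mem_sphere_zero.1 hb
    push_cast at this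
    exact this
  have hnb' : nrm b' = 16 * Z.m := by
    have := mem_sphere_zero.1 hb'
    push_cast at this
    exact this
  have hx2 : nrm Z.x ≤ 2 := by
    have := mem_ball_zero.1 Z.hx
    push_cast at this
    exact this
  have hxb : Z.x ∉ ball b (3 * s) := fun hx => by
    have := le_nrm_of_mem_ball hx
    push_cast at this
    omega
  have hab : a ∉ ball b' (3 * s) := fun hx => by
    have h1 := nrm_le_of_mem_ball hx
    have h2 := (Z.hL a haL).2
    push_cast at h1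
    omega
  have hglue := chain_glue hs hg.chain ho hxu hxb hu haw hab hw
  show P1 Z s b b' (cl ω (GG Z s γ n) {Z.x}) (cl ω (GG Z s γ n) {Z.y}) (cl ω (GG Z s γ n) Z.T)
  refine ⟨⟨a, mem_cl_iff.2 hglue, haL⟩, ?_, ?_, ?_, ?_, ?_, ?_, ?_, ?_⟩
  · rw [ey]; exact hy4
  · rw [eT]; exact hT16
  · rw [ey]; exact cl_sub
  · rw [eT]; exact cl_sub
  · rw [ey]; exact hd
  · rw [eT]; exact hd'
  · exact cl_disjoint (by rw [ey]; exact hxy)
  · refine cl_disjoint ?_
    rw [eT]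
    intro hx
    have := Z.hD _ (cl_sub hx)
    omega

private theorem disj_BD {Z : Dat} {v : Vert} (hB : v ∈ Z.B) (hD : v ∈ Z.D) : False := by
  have h1 := mem_ball_zero.1 hB
  have h2 := Z.hD v hD
  have hm := Z.hm
  push_cast at h1
  omega

private theorem B_sub_R (Z : Dat) : Z.B ⊆ ball 0 Z.R := fun v hv => by
  refine Z.hWR (Z.hBW ?_)
  exact ball_mono (by omega) hv

private theorem ball_finite (v : Vert) (r : ℕ) : (ball v r).Finite := by
  refine Set.Finite.subset ((Set.finite_Icc (v.1 - r) (v.1 + r)).prod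
    (Set.finite_Icc (v.2 - r) (v.2 + r))) ?_
  rintro ⟨a, b⟩ ⟨h1, h2, h3, h4⟩
  exact ⟨⟨h1, h2⟩, ⟨h3, h4⟩⟩

/-- First gluing. -/
theorem stage1 {Z : Dat} {s n : ℕ} {γ : ℕ → Vert} {b b' : Vert} (hs : 1 ≤ s)
    (hsm : 100 * s ≤ Z.m) (hb : b ∈ sphere 0 (4 * Z.m)) (hb' : b' ∈ sphere 0 (16 * Z.m))
    (hg : ZGood Z.m s γ n b b') {q : I} {c : ℝ} (hc : 0 ≤ c)
    (hP : c ≤ Pr q (AllCirc γ n s)) :
    c * PrE q Z.E (E0 Z s b b') ≤ PrE q Z.E (E1 Z s b b' (GG Z s γ n)) := by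
  classical
  have hm := Z.hm
  have hBR := B_sub_R Z
  have hDR : Z.D ⊆ ball 0 Z.R := Z.hDW.trans Z.hWR
  have hBf : Z.B.Finite := (ball_finite 0 Z.R).subset hBR
  have hDf : Z.D.Finite := (ball_finite 0 Z.R).subset hDR
  have hsB : ∀ e, src e ∈ Z.B → tgt e ∈ Z.B → e ∈ eIn Z.R Z.B :=
    fun e h1 h2 => (mem_eIn hBR).2 ⟨h1, h2⟩
  have hsD : ∀ e, src e ∈ Z.D → tgt e ∈ Z.D → e ∈ eIn Z.R Z.D :=
    fun e h1 h2 => (mem_eIn hDR).2 ⟨h1, h2⟩
  -- the index set
  let F : Finset (Set Vert × Set Vert) :=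
    (hBf.finite_subsets.toFinset ×ˢ hDf.finite_subsets.toFinset).filter (fun i =>
      Z.x ∉ i.1 ∧ (i.1 ∩ sphere 0 (4 * Z.m)).Nonempty ∧ (i.2 ∩ sphere 0 (16 * Z.m)).Nonempty ∧
        Disjoint i.1 (ball b (38 * s)) ∧ Disjoint i.2 (ball b' (38 * s)))
  let X : Set Vert × Set Vert → Set Config := fun i =>
    {ω | cl ω Z.B {Z.y} = i.1} ∩ {ω | cl ω Z.D Z.T = i.2}
  let A : Set Vert × Set Vert → Set Config := fun i =>
    {ω | (∃ u ∈ ball b s, Conn ω (Z.B \ i.1) Z.x u) ∧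
      ∃ u ∈ Z.L, u ∉ i.2 ∧ ∃ w ∈ ball b' s, Conn ω (Z.D \ i.2) u w}
  have hF : ∀ i ∈ F, Z.x ∉ i.1 ∧ (i.1 ∩ sphere 0 (4 * Z.m)).Nonempty ∧
      (i.2 ∩ sphere 0 (16 * Z.m)).Nonempty ∧ Disjoint i.1 (ball b (38 * s)) ∧
      Disjoint i.2 (ball b' (38 * s)) := fun i hi => (Finset.mem_filter.1 hi).2
  have key := cond_fkgE (q := q) (E := Z.E) F X A (fun _ => AllCirc γ n s)
    (fun i => touch (eIn Z.R Z.B) i.1 ∪ touch (eIn Z.R Z.D) i.2)
    (fun i => off (eIn Z.R Z.B) i.1 ∪ off (eIn Z.R Z.D) i.2)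
    (fun _ => eZone γ n s) hc ?_ ?_ ?_ ?_ ?_ ?_ ?_ ?_ ?_
  · refine le_trans (mul_le_mul_of_nonneg_left (PrE_mono ?_) hc) (key.trans (PrE_mono ?_))
    · rintro ω ⟨⟨u, hu, hxu⟩, hxy, ⟨a, haL, haT, w, hw, haw⟩, hy4, hT16, hd, hd'⟩
      refine Set.mem_biUnion (x := (cl ω Z.B {Z.y}, cl ω Z.D Z.T)) ?_
        ⟨⟨rfl, rfl⟩, ⟨u, hu, conn_off hxy hxu⟩, a, haL, haT, w, hw, conn_off haT haw⟩
      refine Finset.mem_filter.2 ⟨Finset.mem_product.2 ⟨?_, ?_⟩, hxy, hy4, hT16, hd, hd'⟩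
      · exact (Set.Finite.mem_toFinset _).2 cl_sub
      · exact (Set.Finite.mem_toFinset _).2 cl_sub
    · intro ω hω
      simp only [Set.mem_iUnion] at hω
      obtain ⟨i, hi, ⟨hX1, hX2⟩, ⟨⟨u, hu, hxu⟩, a, haL, haT, w, hw, haw⟩, hO⟩ := hω
      simp only [Set.mem_ofPred_eq] at hX1 hX2
      obtain ⟨k1, k2, k3, k4, k5⟩ := hF i hi
      refine stage1_det hs hsm hb hb' hg ?_ hO
      refine ⟨⟨u, hu, hxu.mono_set Set.sdiff_subset⟩, by rw [hX1]; exact k1,
        ⟨a, haL, by rw [hX2]; exact haT, w, hw, haw.mono_set Set.sdiff_subset⟩, ?_, ?_, ?_, ?_⟩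
      · rw [hX1]; exact k2
      · rw [hX2]; exact k3
      · rw [hX1]; exact k4
      · rw [hX2]; exact k5
  · -- disjointness of the values
    intro i _ j _ hij
    rw [Set.disjoint_left]
    rintro ω ⟨h1, h2⟩ ⟨h3, h4⟩
    simp only [Set.mem_ofPred_eq] at h1 h2 h3 h4
    exact hij (Prod.ext (h1.symm.trans h3) (h2.symm.trans h4))
  · intro i _
    exact LocalOn.inter ((localOn_cl hsB).mono Finset.subset_union_left)
      ((localOn_cl hsD).mono Finset.subset_union_right)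
  · rintro i - ω ω' h ⟨⟨u, hu, hxu⟩, a, haL, haT, w, hw, haw⟩
    exact ⟨⟨u, hu, localOn_conn_off hsB ω ω' (fun e he => h e (Finset.mem_union_left _ he)) hxu⟩,
      a, haL, haT, w, hw,
      localOn_conn_off hsD ω ω' (fun e he => h e (Finset.mem_union_right _ he)) haw⟩
  · intro i _
    exact localOn_allCirc γ n s
  · rintro i - ω ω' h ⟨⟨u, hu, hxu⟩, a, haL, haT, w, hw, haw⟩
    exact ⟨⟨u, hu, hxu.mono le_rfl h⟩, a, haL, haT, w, hw, haw.mono le_rfl h⟩
  · intro i _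
    exact incr_allCirc γ n s
  · intro i _
    rw [Finset.disjoint_union_left, Finset.disjoint_union_right, Finset.disjoint_union_right]
    refine ⟨⟨touch_disj _ _ _, ?_⟩, ?_, touch_disj _ _ _⟩
    · rw [Finset.disjoint_left]
      intro e h1 h2
      have h3 := ((mem_eIn hBR).1 (mem_touch.1 h1).1).1
      have h4 := ((mem_eIn hDR).1 (mem_off.1 h2).1).1
      exact disj_BD h3 h4
    · rw [Finset.disjoint_left]
      intro e h1 h2
      have h3 := ((mem_eIn hDR).1 (mem_touch.1 h1).1).1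
      have h4 := ((mem_eIn hBR).1 (mem_off.1 h2).1).1
      exact disj_BD h4 h3
  · intro i hi
    obtain ⟨k1, k2, k3, k4, k5⟩ := hF i hi
    rw [Finset.disjoint_union_left]
    constructor
    · rw [Finset.disjoint_left]
      intro e h1 h2
      obtain ⟨h3, h4⟩ := mem_touch.1 h1
      obtain ⟨h5, h6⟩ := (mem_eIn hBR).1 h3
      obtain ⟨h7, h8⟩ := mem_eZone h2
      have aux : ∀ v ∈ Z.B, v ∈ zone γ n s → v ∉ i.1 := by
        intro v hv hz hvi
        have h9 := mem_ball_zero.1 hv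
        push_cast at h9
        have h10 := hg.inner v hz (by omega)
        exact not_mem_of_disj k4 hvi (ball_mono (by omega) h10)
      rcases h4 with h4 | h4
      · exact aux _ h5 h7 h4
      · exact aux _ h6 h8 h4
    · rw [Finset.disjoint_left]
      intro e h1 h2
      obtain ⟨h3, h4⟩ := mem_touch.1 h1
      obtain ⟨h5, h6⟩ := (mem_eIn hDR).1 h3
      obtain ⟨h7, h8⟩ := mem_eZone h2
      have aux : ∀ v ∈ Z.D, v ∈ zone γ n s → v ∉ i.2 := by
        intro v hv hz hvi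
        have h9 := Z.hD v hv
        have h10 := hg.outer v hz (by omega)
        exact not_mem_of_disj k5 hvi (ball_mono (by omega) h10)
      rcases h4 with h4 | h4
      · exact aux _ h5 h7 h4
      · exact aux _ h6 h8 h4
  · intro i _
    have hd : Disjoint (eZone γ n s) Z.E := by
      rw [Finset.disjoint_left]
      intro e h1 h2
      have h3 := hg.low _ (mem_eZone h1).1
      have h4 := mem_ball_zero.1 (Z.hE e h2).1
      push_cast at h4
      omega
    rw [PrE_eq (localOn_allCirc γ n s) hd]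
    exact hP

end Pool.Agent.H57.EX
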