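import Pool.Agent.H57.EX.Base

/-!
# Open paths: last exits, comparison of clusters in two domains
-/

open MeasureTheory ProbabilityTheory unitInterval

namespace Pool.Agent.H57.EX

open Pool.Agent.H89.Perc Pool.Agent.H61.NC Pool.Agent.H29.Sep

/-- Monotonicity in the domain and in the configuration (only the edges of the smaller domain
matter). -/
theorem conn_congr {ω ω' : Config} {S T : Set Vert} {u v : Vert} (h : Conn ω S u v) (hST : S ⊆ T)
    (he : ∀ e, src e ∈ S → tgt e ∈ S → ω e = true → ω' e = true) : Conn ω' T u v := by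
  refine ⟨hST h.1, Relation.ReflTransGen.mono ?_ _ _ h.2⟩
  rintro a b ⟨ha, hb, e, hj, ho⟩
  refine ⟨hST ha, hST hb, e, hj, ?_⟩
  rcases hj with ⟨h1, h2⟩ | ⟨h1, h2⟩
  · exact he e (h1 ▸ ha) (h2 ▸ hb) ho
  · exact he e (h2 ▸ hb) (h1 ▸ ha) ho

/-- The last exit of a path from the set `S`. -/
theorem last_exit {ω : Config} {W S : Set Vert} {x p : Vert} (h : Conn ω W x p) (hx : x ∈ S)
    (hp : p ∉ S) : ∃ v ∈ S, ∃ w, w ∉ S ∧ v ∈ W ∧ w ∈ W ∧ (∃ e, Joins e v w ∧ ω e = true) ∧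
      Conn ω (W \ S) w p := by
  obtain ⟨v, w, hv, _, hstep, hc⟩ := h.exists_last hx hp
  exact ⟨v, hv, w, hc.mem_left.2, hstep.1, hstep.2.1, hstep.2.2, hc⟩

/-- First exit from a ball: the part of a path up to the sphere. -/
theorem reach_sphere {ω : Config} {D : Set Vert} {z u w : Vert} {ρ : ℕ} (h : Conn ω D u w)
    (hu : u ∈ ball z ρ) (hw : w ∉ ball z ρ ∨ w ∈ sphere z ρ) :
    ∃ v ∈ sphere z ρ, Conn ω (D ∩ ball z ρ) u v :=
  h.to_sphere hu hw

/-- The start of a path entering `ball 0 (t - 1)`, backwards. -/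
private theorem walk_enter {ω : Config} {D : Set Vert} {z w : Vert} {t : ℕ} (ht : 1 ≤ t)
    (h : Conn ω D w z) (hz : z ∈ ball 0 (t - 1)) (hw : w ∉ ball 0 (t - 1)) :
    ∃ v ∈ sphere 0 t, Conn ω (D \ ball 0 (t - 1)) v w := by
  obtain ⟨a, a', h1, h2, h3, _⟩ := h.exists_hit hw hz
  refine ⟨a, ?_, h1.symm⟩
  have h4 := h1.mem_right.2
  have h5 := h2.fst_le
  have h6 := h2.snd_le
  have h7 : ((t - 1 : ℕ) : ℤ) = (t : ℤ) - 1 := by omega
  simp only [mem_ball, Prod.fst_zero, Prod.snd_zero, h7] at h3 h4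
  simp only [sphere, ball, rect, Set.mem_ofPred_eq, Prod.fst_zero, Prod.snd_zero]
  omega

/-- Last visit of a ball: the part of a path after the sphere. -/
theorem leave_sphere {ω : Config} {D : Set Vert} {u w : Vert} {t : ℕ} (ht : 1 ≤ t)
    (h : Conn ω D u w) (hu : u ∈ ball 0 t) (hw : w ∉ ball 0 (t - 1)) :
    ∃ v ∈ sphere 0 t, Conn ω (D \ ball 0 (t - 1)) v w := by
  by_cases hub : u ∈ ball 0 (t - 1)
  · exact walk_enter ht h.symm hub hw
  by_contra hno
  push Not at hno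
  have key : Conn ω (D \ ball 0 (t - 1)) w u := by
    refine h.symm.induction_right (P := fun x => Conn ω (D \ ball 0 (t - 1)) w x)
      (Conn.refl ⟨h.mem_right, hw⟩) ?_
    intro a b hwa hab ha
    by_cases hb : b ∈ ball 0 (t - 1)
    · obtain ⟨v, hv, hc⟩ := walk_enter ht (hwa.tail hab) hb hw
      exact absurd hc (hno v hv)
    · exact ha.tail ⟨ha.mem_right, ⟨hab.2.1, hb⟩, hab.2.2⟩
  refine hno u ?_ key.symm
  have h7 : ((t - 1 : ℕ) : ℤ) = (t : ℤ) - 1 := by omega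
  simp only [mem_ball, Prod.fst_zero, Prod.snd_zero, h7] at hu hub
  simp only [sphere, ball, rect, Set.mem_ofPred_eq, Prod.fst_zero, Prod.snd_zero]
  omega

/-- A path which starts in a cluster stays in this cluster. -/
theorem conn_in_cl {ω : Config} {D X : Set Vert} {u v : Vert} (h : Conn ω D u v)
    (hu : u ∈ cl ω D X) : Conn ω (cl ω D X) u v := by
  obtain ⟨x, hx, hxu⟩ := hu
  refine h.induction_right (P := fun y => Conn ω (cl ω D X) u y)
    (Conn.refl ⟨x, hx, hxu⟩) ?_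
  intro a b hua hab ha
  refine ha.tail ⟨ha.mem_right, ⟨x, hx, (hxu.trans hua).tail hab⟩, hab.2.2⟩

theorem cl_mono {ω : Config} {D G X : Set Vert} (h : D ⊆ G) : cl ω D X ⊆ cl ω G X := by
  rintro v ⟨u, hu, hc⟩
  exact ⟨u, hu, hc.mono_set h⟩

/-- If no open edge of `G` leaves the domain `D` from the cluster of `X` in `D`, this cluster is the
cluster in `G`. -/
theorem cl_eq_cl {ω : Config} {D G X : Set Vert} (h : D ⊆ G) (hX : ∀ v ∈ X, v ∈ G → v ∈ D)
    (hstep : ∀ v ∈ cl ω D X, ∀ e w, Joins e v w → w ∈ G → w ∈ D) : cl ω G X = cl ω D X := by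
  refine Set.Subset.antisymm ?_ (cl_mono h)
  rintro v ⟨u, hu, hc⟩
  refine ⟨u, hu, ?_⟩
  refine hc.induction_right (P := fun y => Conn ω D u y)
    (Conn.refl (hX u hu hc.mem_left)) ?_
  intro a b _ hab ha
  obtain ⟨e, hj, ho⟩ := hab.2.2
  exact ha.tail ⟨ha.mem_right, hstep a ⟨u, hu, ha⟩ e b hj hab.2.1, e, hj, ho⟩

theorem mem_cl_self {ω : Config} {D : Set Vert} {v : Vert} (h : v ∈ D) : v ∈ cl ω D {v} :=
  ⟨v, rfl, Conn.refl h⟩

theorem mem_cl_iff {ω : Config} {D : Set Vert} {u v : Vert} :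
    v ∈ cl ω D {u} ↔ Conn ω D u v := by
  constructor
  · rintro ⟨x, hx, hc⟩
    rw [Set.mem_singleton_iff] at hx
    rwa [← hx]
  · intro h
    exact ⟨u, rfl, h⟩

/-- Two clusters are equal or disjoint. -/
theorem cl_disjoint {ω : Config} {D X : Set Vert} {x : Vert} (hx : x ∉ cl ω D X) :
    Disjoint (cl ω D {x}) (cl ω D X) := by
  rw [Set.disjoint_left]
  rintro v hv ⟨u, hu, hc⟩
  exact hx ⟨u, hu, hc.trans (mem_cl_iff.1 hv).symm⟩

end Pool.Agent.H57.EX
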